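import Mathlib

/-!
Tools for elementary abelian subgroups of 3-groups that are normal in their normal closure.
-/

namespace MP67

open Subgroup
open scoped commutatorElement

variable {G : Type*} [Group G]

/-- `E` is elementary abelian of exponent dividing 3. -/
def EA (E : Subgroup G) : Prop := (∀ x ∈ E, ∀ y ∈ E, x * y = y * x) ∧ ∀ x ∈ E, x ^ 3 = 1

/-- Descent along the lower central series. -/
lemma descent [Group.IsNilpotent G] (N T S : Set G)
    (hcl : ∀ y ∈ N, ∀ e ∈ S, ⁅e, y⁆ ∈ N) (h1 : (1 : G) ∈ T)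
    (h : ∀ y ∈ N, (∀ e ∈ S, ⁅e, y⁆ ∈ T) → y ∈ T) : ∀ y ∈ N, y ∈ T := by
  obtain ⟨K, hK⟩ := Subgroup.nilpotent_iff_lowerCentralSeries.mp
    (inferInstance : Group.IsNilpotent G)
  have key : ∀ j, j ≤ K → ∀ y ∈ N, y ∈ (⊤ : Subgroup G).lowerCentralSeries (K - j) → y ∈ T := by
    intro j
    induction j with
    | zero =>
      intro _ y _ hy
      rw [Nat.sub_zero, hK, Subgroup.mem_bot] at hy
      rw [hy]; exact h1
    | succ j ih =>
      intro hj y hyN hy
      refine h y hyN (fun e he => ih (by omega) _ (hcl y hyN e he) ?_)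
      have h2 : K - j = (K - (j + 1)) + 1 := by omega
      rw [h2, Subgroup.lowerCentralSeries_succ, ← commutatorElement_inv]
      exact Subgroup.inv_mem _ (Subgroup.commutator_mem_commutator hy (Subgroup.mem_top e))
  intro y hy
  refine key K le_rfl y hy ?_
  simp

/-- The product of two commuting subgroups. -/
def prodSub (A B : Subgroup G) (h : ∀ a ∈ A, ∀ b ∈ B, a * b = b * a) : Subgroup G where
  carrier := {x | ∃ a ∈ A, ∃ b ∈ B, x = a * b}
  mul_mem' := by
    rintro _ _ ⟨a, ha, b, hb, rfl⟩ ⟨a', ha', b', hb', rfl⟩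
    refine ⟨a * a', mul_mem ha ha', b * b', mul_mem hb hb', ?_⟩
    have := h a' ha' b hb
    calc a * b * (a' * b') = a * (b * a') * b' := by group
      _ = a * (a' * b) * b' := by rw [this]
      _ = a * a' * (b * b') := by group
  one_mem' := ⟨1, one_mem _, 1, one_mem _, by simp⟩
  inv_mem' := by
    rintro _ ⟨a, ha, b, hb, rfl⟩
    refine ⟨a⁻¹, inv_mem ha, b⁻¹, inv_mem hb, ?_⟩
    rw [mul_inv_rev]
    exact (h a⁻¹ (inv_mem ha) b⁻¹ (inv_mem hb)).symm

lemma EA_prodSub {A B : Subgroup G} (h : ∀ a ∈ A, ∀ b ∈ B, a * b = b * a) (hA : EA A)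
    (hB : EA B) : EA (prodSub A B h) := by
  constructor
  · rintro _ ⟨a, ha, b, hb, rfl⟩ _ ⟨a', ha', b', hb', rfl⟩
    have h1 := h a' ha' b hb
    have h2 := h a ha b' hb'
    calc a * b * (a' * b') = a * (b * a') * b' := by group
      _ = a * (a' * b) * b' := by rw [h1]
      _ = (a * a') * (b * b') := by group
      _ = (a' * a) * (b' * b) := by rw [hA.1 a ha a' ha', hB.1 b hb b' hb']
      _ = a' * (a * b') * b := by group
      _ = a' * (b' * a) * b := by rw [h2]
      _ = a' * b' * (a * b) := by group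
  · rintro _ ⟨a, ha, b, hb, rfl⟩
    have hc : Commute a b := h a ha b hb
    rw [hc.mul_pow, hA.2 a ha, hB.2 b hb, one_mul]

lemma left_le_prodSub {A B : Subgroup G} (h : ∀ a ∈ A, ∀ b ∈ B, a * b = b * a) :
    A ≤ prodSub A B h := fun a ha => ⟨a, ha, 1, one_mem _, by simp⟩

lemma right_le_prodSub {A B : Subgroup G} (h : ∀ a ∈ A, ∀ b ∈ B, a * b = b * a) :
    B ≤ prodSub A B h := fun b hb => ⟨1, one_mem _, b, hb, by simp⟩

lemma card_mul_relIndex' (H K : Subgroup G) (h : H ≤ K) :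
    Nat.card H * H.relIndex K = Nat.card K := by
  have := relIndex_mul_relIndex ⊥ H K bot_le h
  rwa [relIndex_bot_left, relIndex_bot_left] at this

/-- The basic maximality argument. -/
lemma P1 [Finite G] {E V : Subgroup G} (hE : EA E) (hV : EA V)
    (hmax : ∀ F : Subgroup G, EA F → Nat.card F ≤ Nat.card E)
    (hmaxV : ∀ F : Subgroup G, EA F → Nat.card F = Nat.card E →
      Nat.card (F ⊓ V : Subgroup G) ≤ Nat.card (E ⊓ V : Subgroup G))
    (φ : G → G) (hφV : ∀ s ∈ E, φ s ∈ V)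
    (h1 : ∀ s ∈ E, ∀ t ∈ E, ∃ c ∈ E, φ (s * t) = φ s * φ t * c)
    (h2 : ∀ s ∈ E, ∀ t ∈ E, φ t ∈ E → t * φ s = φ s * t) : ∀ s ∈ E, φ s ∈ E := by
  have h1' : φ 1 ∈ E := by
    obtain ⟨c, hc, h⟩ := h1 1 (one_mem _) 1 (one_mem _)
    rw [one_mul] at h
    have : φ 1 = c⁻¹ := by
      have h' : φ 1 * 1 = φ 1 * (φ 1 * c) := by rw [mul_one, ← mul_assoc]; exact h
      have := mul_left_cancel h'
      exact eq_inv_of_mul_eq_one_left this.symm
    rw [this]; exact inv_mem hc
  have hinv : ∀ s ∈ E, φ s ∈ E → φ s⁻¹ ∈ E := by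
    intro s hs hφ
    obtain ⟨c, hc, h⟩ := h1 s hs s⁻¹ (inv_mem hs)
    rw [mul_inv_cancel] at h
    have : φ s⁻¹ = (φ s)⁻¹ * φ 1 * c⁻¹ := by rw [h]; group
    rw [this]
    exact mul_mem (mul_mem (inv_mem hφ) h1') (inv_mem hc)
  let U : Subgroup G :=
    { carrier := {s | s ∈ E ∧ φ s ∈ E}
      mul_mem' := by
        rintro s t ⟨hs, hs'⟩ ⟨ht, ht'⟩
        refine ⟨mul_mem hs ht, ?_⟩
        obtain ⟨c, hc, h⟩ := h1 s hs t ht
        rw [h]; exact mul_mem (mul_mem hs' ht') hc
      one_mem' := ⟨one_mem _, h1'⟩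
      inv_mem' := by
        rintro s ⟨hs, hs'⟩
        exact ⟨inv_mem hs, hinv s hs hs'⟩ }
  let K : Subgroup G :=
    { carrier := {v | v ∈ V ∧ ∀ t ∈ U, t * v = v * t}
      mul_mem' := by
        rintro v w ⟨hv, hv'⟩ ⟨hw, hw'⟩
        refine ⟨mul_mem hv hw, fun t ht => ?_⟩
        rw [← mul_assoc, hv' t ht, mul_assoc, hw' t ht, mul_assoc]
      one_mem' := ⟨one_mem _, fun t _ => by simp⟩
      inv_mem' := by
        rintro v ⟨hv, hv'⟩
        refine ⟨inv_mem hv, fun t ht => ?_⟩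
        have := hv' t ht
        calc t * v⁻¹ = v⁻¹ * (v * t) * v⁻¹ := by group
          _ = v⁻¹ * (t * v) * v⁻¹ := by rw [this]
          _ = v⁻¹ * t := by group }
  have hUE : U ≤ E := fun s hs => hs.1
  have hKV : K ≤ V := fun s hs => hs.1
  have hφK : ∀ s ∈ E, φ s ∈ K := fun s hs => ⟨hφV s hs, fun t ht => h2 s hs t ht.1 ht.2⟩
  have hCK : E ⊓ V ≤ K := fun v hv => ⟨hv.2, fun t ht => hE.1 t ht.1 v hv.1⟩
  have hU : EA U := ⟨fun x hx y hy => hE.1 x hx.1 y hy.1, fun x hx => hE.2 x hx.1⟩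
  have hK : EA K := ⟨fun x hx y hy => hV.1 x hx.1 y hy.1, fun x hx => hV.2 x hx.1⟩
  have hcomm : ∀ a ∈ U, ∀ b ∈ K, a * b = b * a := fun a ha b hb => hb.2 a ha
  set P := prodSub U K hcomm with hP
  have hPE : EA P := EA_prodSub hcomm hU hK
  -- the index inequality
  have hdiff : ∀ s ∈ E, ∀ t ∈ E, (s⁻¹ * t ∈ U ↔ (φ s)⁻¹ * φ t ∈ E ⊓ V) := by
    intro s hs t ht
    obtain ⟨c, hc, h⟩ := h1 s hs (s⁻¹ * t) (mul_mem (inv_mem hs) ht)
    rw [mul_inv_cancel_left] at h
    have h' : (φ s)⁻¹ * φ t = φ (s⁻¹ * t) * c := by rw [h]; group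
    constructor
    · rintro ⟨_, h3⟩
      refine ⟨?_, V.mul_mem (V.inv_mem (hφV s hs)) (hφV t ht)⟩
      rw [h']; exact mul_mem h3 hc
    · rintro ⟨h3, _⟩
      refine ⟨mul_mem (inv_mem hs) ht, ?_⟩
      rw [h'] at h3
      exact (mul_mem_cancel_right hc).mp h3
  have hidx : U.relIndex E ≤ (E ⊓ V).relIndex K := by
    unfold relIndex
    rw [index_eq_card, index_eq_card]
    refine Nat.card_le_card_of_injective (α := E ⧸ U.subgroupOf E)
      (β := K ⧸ (E ⊓ V).subgroupOf K)
      (Quotient.map' (fun s : E => (⟨φ s, hφK s s.2⟩ : K)) ?_) ?_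
    · intro s t hst
      rw [QuotientGroup.leftRel_apply] at hst ⊢
      rw [mem_subgroupOf] at hst ⊢
      exact (hdiff s s.2 t t.2).mp hst
    · intro a b
      induction a using Quotient.inductionOn' with
      | h s =>
      induction b using Quotient.inductionOn' with
      | h t =>
      intro hst
      rw [Quotient.map'_mk'', Quotient.map'_mk''] at hst
      have h3 := Quotient.exact' hst
      rw [QuotientGroup.leftRel_apply, mem_subgroupOf] at h3
      apply Quotient.sound'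
      rw [QuotientGroup.leftRel_apply, mem_subgroupOf]
      exact (hdiff s s.2 t t.2).mpr h3
  have hKP : K ≤ P := right_le_prodSub hcomm
  have hUP : U ≤ P := left_le_prodSub hcomm
  have hUK : K ⊓ U ≤ E ⊓ V := fun x hx => ⟨hx.2.1, hx.1.1⟩
  have hpos : ∀ H : Subgroup G, 0 < Nat.card H := fun H => Nat.card_pos
  have c1 : Nat.card K * K.relIndex P = Nat.card P := card_mul_relIndex' K P hKP
  have c2 : Nat.card U * U.relIndex E = Nat.card E := card_mul_relIndex' U E hUE
  have c3 : Nat.card (E ⊓ V : Subgroup G) * (E ⊓ V).relIndex K = Nat.card K :=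
    card_mul_relIndex' _ K hCK
  have c4 : Nat.card (K ⊓ U : Subgroup G) * K.relIndex U = Nat.card U := by
    rw [← inf_relIndex_right]
    exact card_mul_relIndex' _ U inf_le_right
  have c5 : K.relIndex U ≤ K.relIndex P := by
    refine relIndex_le_of_le_right hUP ?_
    have : 0 < K.relIndex P := by
      by_contra h0
      have : K.relIndex P = 0 := by omega
      rw [this, mul_zero] at c1
      have := hpos P
      omega
    omega
  have c6 : Nat.card (K ⊓ U : Subgroup G) ≤ Nat.card (E ⊓ V : Subgroup G) :=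
    Subgroup.card_le_of_le hUK
  have hle : Nat.card E ≤ Nat.card P := by
    -- card E * card C = card U * idx * card C <= card U * card K <= ...
    have hC := hpos (E ⊓ V)
    have e1 : Nat.card E * Nat.card (E ⊓ V : Subgroup G) ≤ Nat.card U * Nat.card K := by
      calc Nat.card E * Nat.card (E ⊓ V : Subgroup G)
          = Nat.card U * (Nat.card (E ⊓ V : Subgroup G) * U.relIndex E) := by rw [← c2]; ring
        _ ≤ Nat.card U * (Nat.card (E ⊓ V : Subgroup G) * (E ⊓ V).relIndex K) := by gcongr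
        _ = Nat.card U * Nat.card K := by rw [c3]
    have e2 : Nat.card U * Nat.card K ≤ Nat.card P * Nat.card (E ⊓ V : Subgroup G) := by
      calc Nat.card U * Nat.card K
          = Nat.card (K ⊓ U : Subgroup G) * K.relIndex U * Nat.card K := by rw [c4]
        _ ≤ Nat.card (E ⊓ V : Subgroup G) * K.relIndex P * Nat.card K := by gcongr
        _ = Nat.card P * Nat.card (E ⊓ V : Subgroup G) := by rw [← c1]; ring
    exact Nat.le_of_mul_le_mul_right (e1.trans e2) hC
  have heq : Nat.card P = Nat.card E := le_antisymm (hmax P hPE) hle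
  have hKC : Nat.card K ≤ Nat.card (E ⊓ V : Subgroup G) :=
    (Subgroup.card_le_of_le (le_inf hKP hKV)).trans (hmaxV P hPE heq)
  have hKeq : E ⊓ V = K := by
    refine Subgroup.eq_of_le_of_card_ge hCK hKC
  intro s hs
  have := hφK s hs
  rw [← hKeq] at this
  exact this.1

end MP67
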