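import Mathlib
import Pool.Agent.Lib.MP_67dbdc_al.Core

/-!
The characteristic 3 limit of an elementary abelian subgroup under a group of order 3.
-/

namespace MP67

open Subgroup
open scoped commutatorElement

section Count

/-- Counting in an abelian group with an endomorphism `m` with `m ^ 3 = 0` on `T`. -/
lemma abs_count {Q : Type*} [CommGroup Q] [Finite Q] (m : Q →* Q) (T : Subgroup Q)
    (h3 : ∀ t ∈ T, t ^ 3 = 1) (hm : ∀ t ∈ T, m (m (m t)) = 1)
    (hT : ∀ t ∈ T, m t = 1 → t = 1) :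
    ∃ S : Subgroup Q, (∀ q, q ∈ S ↔ ∃ w ∈ T, ∃ s ∈ T, ∃ r ∈ T, m w = m (m s) ∧
      q = w * m s * m (m r)) ∧ Nat.card T ≤ Nat.card S := by
  let K : Subgroup (T × T) :=
    { carrier := {p | m p.1 = m (m p.2)}
      mul_mem' := by
        intro a b ha hb
        change m _ = m (m _) at ha
        change m _ = m (m _) at hb
        change m _ = m (m _)
        simp [ha, hb]
      one_mem' := by simp
      inv_mem' := by
        intro a ha
        change m _ = m (m _) at ha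
        change m _ = m (m _)
        simp [ha] }
  let f : K × T →* Q :=
    { toFun := fun p => (p.1.1.1 : Q) * m p.1.1.2 * m (m p.2)
      map_one' := by simp
      map_mul' := by
        intro a b
        simp only [Prod.fst_mul, Prod.snd_mul, Subgroup.coe_mul, map_mul]
        ac_rfl }
  have hker : ∀ p ∈ f.ker, (p.1.1.1 : Q) = 1 ∧ m p.1.1.2 = m (m p.2)⁻¹ := by
    intro p hp
    rw [MonoidHom.mem_ker] at hp
    have hp' : (p.1.1.1 : Q) * m p.1.1.2 * m (m p.2) = 1 := hp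
    have hK : m p.1.1.1 = m (m p.1.1.2) := p.1.2
    have h1 := congrArg m hp'
    rw [map_mul, map_mul, map_one, hm _ p.2.2, mul_one, hK] at h1
    have h2 : (m (m (p.1.1.2 : Q))) ^ 3 = 1 := by
      rw [← map_pow, ← map_pow, h3 _ p.1.1.2.2, map_one, map_one]
    have h4 : m (m (p.1.1.2 : Q)) = 1 := by
      rw [pow_succ, pow_two, h1, one_mul] at h2
      exact h2
    rw [h4] at hK
    have h5 := hT _ p.1.1.1.2 hK
    refine ⟨h5, ?_⟩
    rw [h5, one_mul] at hp'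
    rw [map_inv]
    exact eq_inv_of_mul_eq_one_left hp'
  have hle : Nat.card f.ker ≤ Nat.card K := by
    refine Nat.card_le_card_of_injective
      (fun p : f.ker => (⟨(p.1.1.1.2, p.1.2⁻¹), ?_⟩ : K)) ?_
    · show m (p.1.1.1.2 : Q) = m (m ((p.1.2⁻¹ : T) : Q))
      rw [(hker p.1 p.2).2, Subgroup.coe_inv, map_inv, map_inv, map_inv]
    · intro p q hpq
      have h1 := congrArg (fun k : K => k.1) hpq
      simp only [Prod.mk.injEq, inv_inj] at h1
      have h2 : p.1.1.1.1 = q.1.1.1.1 := by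
        apply Subtype.ext
        rw [(hker p.1 p.2).1, (hker q.1 q.2).1]
      apply Subtype.ext
      refine Prod.ext ?_ h1.2
      apply Subtype.ext
      exact Prod.ext h2 h1.1
  refine ⟨f.range, ?_, ?_⟩
  · intro q
    constructor
    · rintro ⟨p, rfl⟩
      exact ⟨p.1.1.1, p.1.1.1.2, p.1.1.2, p.1.1.2.2, p.2, p.2.2, p.1.2, rfl⟩
    · rintro ⟨w, hw, s, hs, r, hr, h, rfl⟩
      exact ⟨(⟨(⟨w, hw⟩, ⟨s, hs⟩), h⟩, ⟨r, hr⟩), rfl⟩
  · have h1 : Nat.card f.ker * Nat.card f.range = Nat.card (K × T) := by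
      rw [← Subgroup.index_ker]
      exact Subgroup.card_mul_index _
    rw [Nat.card_prod] at h1
    have hpos : 0 < Nat.card K := Nat.card_pos
    have h2 : Nat.card K * Nat.card T ≤ Nat.card K * Nat.card f.range := by
      rw [← h1]
      exact Nat.mul_le_mul_right _ hle
    exact Nat.le_of_mul_le_mul_left h2 hpos

/-- The twisted difference `σ u * u⁻¹`. -/
def dl {H : Type*} [Group H] (σ : H →* H) (u : H) : H := σ u * u⁻¹

/-- Counting modulo a central subgroup. -/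
lemma count_H {H : Type*} [Group H] [Finite H] (σ : H →* H) (E Z : Subgroup H)
    (hZc : ∀ z ∈ Z, ∀ h, h * z = z * h) (hcomm : ∀ a b : H, ⁅a, b⁆ ∈ Z)
    (hσZ : ∀ z ∈ Z, σ z ∈ Z) (hZE : Z ≤ E) (h3 : ∀ e ∈ E, e ^ 3 = 1)
    (hm : ∀ u ∈ E, dl σ (dl σ (dl σ u)) ∈ Z)
    (hker : ∀ u ∈ E, dl σ u ∈ Z → u ∈ Z) :
    ∃ S : Subgroup H, (∀ g, g ∈ S ↔ ∃ w ∈ E, ∃ s ∈ E, ∃ r ∈ E, ∃ z ∈ Z,
      dl σ w * (dl σ (dl σ s))⁻¹ ∈ Z ∧ g = w * dl σ s * dl σ (dl σ r) * z) ∧
      Nat.card E ≤ Nat.card S := by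
  have hZn : Z.Normal := ⟨fun z hz h => by
    rw [hZc z hz h, mul_assoc, mul_inv_cancel, mul_one]; exact hz⟩
  let _ : CommGroup (H ⧸ Z) :=
    { (inferInstance : Group (H ⧸ Z)) with
      mul_comm := by
        intro a b
        induction a using QuotientGroup.induction_on with
        | H a =>
        induction b using QuotientGroup.induction_on with
        | H b =>
        rw [← QuotientGroup.mk_mul, ← QuotientGroup.mk_mul, QuotientGroup.eq]
        have h1 := hcomm b⁻¹ a⁻¹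
        have h2 : (a * b)⁻¹ * (b * a) = ⁅b⁻¹, a⁻¹⁆ := by
          rw [commutatorElement_def]; group
        rw [h2]; exact h1 }
  let q : H →* H ⧸ Z := QuotientGroup.mk' Z
  have hq1 : ∀ h, q h = 1 ↔ h ∈ Z := fun h => QuotientGroup.eq_one_iff h
  let f : H →* H ⧸ Z := (q.comp σ) * q⁻¹
  have hf : ∀ h, f h = q (dl σ h) := by
    intro h
    show q (σ h) * (q h)⁻¹ = q (σ h * h⁻¹)
    rw [map_mul, map_inv]
  have hfZ : ∀ z ∈ Z, f z = 1 := by
    intro z hz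
    rw [hf, hq1]
    exact mul_mem (hσZ z hz) (inv_mem hz)
  let m : H ⧸ Z →* H ⧸ Z := QuotientGroup.lift Z f hfZ
  have hmq : ∀ h, m (q h) = q (dl σ h) := by
    intro h
    rw [← hf]
    rfl
  have g1 : ∀ t ∈ E.map q, t ^ 3 = 1 := by
    rintro _ ⟨e, he, rfl⟩
    rw [← map_pow, h3 e he, map_one]
  have g2 : ∀ t ∈ E.map q, m (m (m t)) = 1 := by
    rintro _ ⟨e, he, rfl⟩
    rw [hmq, hmq, hmq, hq1]
    exact hm e he
  have g3 : ∀ t ∈ E.map q, m t = 1 → t = 1 := by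
    rintro _ ⟨e, he, rfl⟩ h
    rw [hmq, hq1] at h
    rw [hq1]
    exact hker e he h
  obtain ⟨S, hS, hcard⟩ := abs_count m (E.map q) g1 g2 g3
  · refine ⟨S.comap q, ?_, ?_⟩
    · intro g
      rw [mem_comap, hS]
      constructor
      · rintro ⟨_, ⟨w, hw, rfl⟩, _, ⟨s, hs, rfl⟩, _, ⟨r, hr, rfl⟩, h1, h2⟩
        rw [hmq, hmq, hmq] at h1
        rw [hmq, hmq, hmq, ← map_mul, ← map_mul] at h2
        refine ⟨w, hw, s, hs, r, hr, (w * dl σ s * dl σ (dl σ r))⁻¹ * g, ?_, ?_, ?_⟩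
        · rw [← hq1, map_mul, map_inv, h2, inv_mul_cancel]
        · rw [← hq1, map_mul, map_inv, h1, mul_inv_cancel]
        · rw [mul_inv_cancel_left]
      · rintro ⟨w, hw, s, hs, r, hr, z, hz, h1, rfl⟩
        refine ⟨q w, ⟨w, hw, rfl⟩, q s, ⟨s, hs, rfl⟩, q r, ⟨r, hr, rfl⟩, ?_, ?_⟩
        · rw [← hq1, map_mul, map_inv, mul_inv_eq_one] at h1
          rw [hmq, hmq, hmq]; exact h1
        · rw [hmq, hmq, hmq, map_mul, (hq1 z).mpr hz, mul_one, map_mul, map_mul]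
    · have e1 : (E.map q).comap q = E := by
        rw [comap_map_eq_self]
        intro h hh
        exact hZE ((hq1 h).mp hh)
      have hqs : Function.Surjective q := QuotientGroup.mk'_surjective Z
      have e2 : E.index = (E.map q).index := by
        conv_lhs => rw [← e1]
        exact index_comap_of_surjective _ hqs
      have e3 : (S.comap q).index = S.index := index_comap_of_surjective _ hqs
      have c1 := E.card_mul_index
      have c2 := (S.comap q).card_mul_index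
      have c3 := S.card_mul_index
      have c4 := (E.map q).card_mul_index
      rw [e2] at c1
      rw [e3] at c2
      have hSi : 0 < S.index := Nat.pos_of_ne_zero index_ne_zero_of_finite
      have hTi : 0 < (E.map q).index := Nat.pos_of_ne_zero index_ne_zero_of_finite
      have hTc : 0 < Nat.card (E.map q) := Nat.card_pos
      have h5 : S.index ≤ (E.map q).index := by
        by_contra hcon
        push Not at hcon
        have : Nat.card (E.map q) * (E.map q).index < Nat.card S * S.index :=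
          Nat.mul_lt_mul_of_le_of_lt hcard hcon (lt_of_lt_of_le hTc hcard)
        omega
      by_contra hcon
      push Not at hcon
      have : Nat.card (S.comap q) * S.index < Nat.card E * (E.map q).index :=
        Nat.mul_lt_mul_of_lt_of_le hcon h5 hTi
      omega

end Count

section Iso

universe u

variable {H : Type u} [Group H]

/-- The commutator pairing of a group of class 2, written additively. -/
def cp (hcen : ∀ a b : H, ⁅a, b⁆ ∈ center H) (a b : H) : Additive (center H) :=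
  Additive.ofMul ⟨⁅a, b⁆, hcen a b⟩

variable (hcen : ∀ a b : H, ⁅a, b⁆ ∈ center H)

include hcen

lemma cp_eq_zero {a b : H} : cp hcen a b = 0 ↔ a * b = b * a := by
  rw [cp, ofMul_eq_zero, Subtype.ext_iff]
  exact commutatorElement_eq_one_iff_mul_comm

lemma cp_mul_left (a b d : H) : cp hcen (a * b) d = cp hcen a d + cp hcen b d := by
  rw [cp, cp, cp, ← ofMul_mul]
  congr 1
  apply Subtype.ext
  show ⁅a * b, d⁆ = ⁅a, d⁆ * ⁅b, d⁆
  have h1 : ⁅a * b, d⁆ = a * ⁅b, d⁆ * a⁻¹ * ⁅a, d⁆ := by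
    simp only [commutatorElement_def]; group
  have h2 := mem_center_iff.mp (hcen b d) a
  have h3 := mem_center_iff.mp (hcen b d) ⁅a, d⁆
  rw [h1, h2, mul_assoc ⁅b, d⁆, mul_inv_cancel, mul_one, h3]

lemma cp_mul_right (a b d : H) : cp hcen a (b * d) = cp hcen a b + cp hcen a d := by
  rw [cp, cp, cp, ← ofMul_mul]
  congr 1
  apply Subtype.ext
  show ⁅a, b * d⁆ = ⁅a, b⁆ * ⁅a, d⁆
  have h1 : ⁅a, b * d⁆ = ⁅a, b⁆ * (b * ⁅a, d⁆ * b⁻¹) := by
    simp only [commutatorElement_def]; group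
  have h2 := mem_center_iff.mp (hcen a d) b
  rw [h1, h2, mul_assoc ⁅a, d⁆, mul_inv_cancel, mul_one]

lemma cp_three (h3 : ∀ h : H, h ^ 3 = 1) (a b : H) : (3 : ℕ) • cp hcen a b = 0 := by
  rw [cp, ← ofMul_pow, ofMul_eq_zero]
  apply Subtype.ext
  exact h3 _

/-- The commutator pairing with values in an additive commutative group. -/
lemma exists_pairing (h3 : ∀ h : H, h ^ 3 = 1) : ∃ (A : Type u) (_ : AddCommGroup A)
    (c : H → H → A), (∀ a b, c a b = 0 ↔ a * b = b * a) ∧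
    (∀ a b d, c (a * b) d = c a d + c b d) ∧ (∀ a b d, c a (b * d) = c a b + c a d) ∧
    ∀ a b, c a b + c a b + c a b = 0 := by
  let _ : CommGroup (center H) :=
    { (inferInstance : Group (center H)) with
      mul_comm := fun a b => Subtype.ext (mem_center_iff.mp b.2 a) }
  refine ⟨Additive (center H), inferInstance, cp hcen, fun a b => cp_eq_zero hcen,
    cp_mul_left hcen, cp_mul_right hcen, fun a b => ?_⟩
  have := cp_three hcen h3 a b
  rwa [succ_nsmul, two_nsmul] at this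

/-- Isotropy of the limit. -/
lemma iso_H (σ : H →* H) (E Z : Subgroup H) (hZc : ∀ z ∈ Z, ∀ h, h * z = z * h)
    (hσZ : ∀ z ∈ Z, σ z ∈ Z)
    (hE : ∀ u ∈ E, ∀ v ∈ E, u * v = v * u) (h3 : ∀ h : H, h ^ 3 = 1)
    (h33 : ∀ u ∈ E, σ (dl σ (dl σ u)) = dl σ (dl σ u))
    (h22 : ∀ u ∈ E, ∀ v ∈ E, dl σ (dl σ u) * dl σ (dl σ v) = dl σ (dl σ v) * dl σ (dl σ u))
    (h12 : ∀ u ∈ E, ∀ v ∈ E, dl σ u * dl σ (dl σ v) = dl σ (dl σ v) * dl σ u)
    {w s r z w' s' r' z' : H} (hw : w ∈ E) (hs : s ∈ E) (hr : r ∈ E) (hz : z ∈ Z)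
    (hws : dl σ w * (dl σ (dl σ s))⁻¹ ∈ Z)
    (hw' : w' ∈ E) (hs' : s' ∈ E) (hr' : r' ∈ E) (hz' : z' ∈ Z)
    (hws' : dl σ w' * (dl σ (dl σ s'))⁻¹ ∈ Z) :
    (w * dl σ s * dl σ (dl σ r) * z) * (w' * dl σ s' * dl σ (dl σ r') * z') =
    (w' * dl σ s' * dl σ (dl σ r') * z') * (w * dl σ s * dl σ (dl σ r) * z) := by
  obtain ⟨A, _, c, c0, cl, cr, c3⟩ := exists_pairing hcen h3
  have hσ1 : ∀ u, σ u = dl σ u * u := fun u => by rw [dl]; group
  have cE : ∀ u ∈ E, ∀ v ∈ E, c u v = 0 := fun u hu v hv => (c0 _ _).mpr (hE u hu v hv)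
  have c22 : ∀ u ∈ E, ∀ v ∈ E, c (dl σ (dl σ u)) (dl σ (dl σ v)) = 0 :=
    fun u hu v hv => (c0 _ _).mpr (h22 u hu v hv)
  have c12 : ∀ u ∈ E, ∀ v ∈ E, c (dl σ u) (dl σ (dl σ v)) = 0 :=
    fun u hu v hv => (c0 _ _).mpr (h12 u hu v hv)
  have c21 : ∀ u ∈ E, ∀ v ∈ E, c (dl σ (dl σ u)) (dl σ v) = 0 :=
    fun u hu v hv => (c0 _ _).mpr (h12 v hv u hu).symm
  have cZr : ∀ a, ∀ z ∈ Z, c a z = 0 := fun a z hz => (c0 _ _).mpr (hZc z hz a)
  have cZl : ∀ a, ∀ z ∈ Z, c z a = 0 :=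
    fun a z hz => (c0 _ _).mpr (hZc z hz a).symm
  -- the basic relations
  have R1 : ∀ u ∈ E, ∀ v ∈ E,
      c (dl σ u) (dl σ v) + c (dl σ u) v + c u (dl σ v) = 0 := by
    intro u hu v hv
    have h1 : c (σ u) (σ v) = 0 := by
      rw [c0, ← map_mul, hE u hu v hv, map_mul]
    rw [hσ1 u, hσ1 v, cl, cr, cr, cE u hu v hv, add_zero] at h1
    exact h1
  have R2 : ∀ u ∈ E, ∀ v ∈ E,
      c (dl σ (dl σ u)) v + (c (dl σ u) (dl σ v) + c (dl σ u) (dl σ v)) +
        c u (dl σ (dl σ v)) = 0 := by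
    intro u hu v hv
    have h1 : c (σ (σ u)) (σ (σ v)) = 0 := by
      rw [c0, ← map_mul, ← map_mul, hE u hu v hv, map_mul, map_mul]
    have h2 : ∀ t, σ (σ t) = dl σ (dl σ t) * dl σ t * (dl σ t * t) := by
      intro t
      conv_lhs => rw [hσ1 t]
      rw [map_mul, hσ1 (dl σ t), hσ1 t]
    rw [h2 u, h2 v] at h1
    simp only [cl, cr, cE u hu v hv, c22 u hu v hv, c12 u hu v hv,
      c21 u hu v hv, add_zero, zero_add] at h1
    have h4 := R1 u hu v hv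
    have e1 : c (dl σ u) v = - c (dl σ u) (dl σ v) - c u (dl σ v) := by
      rw [eq_sub_iff_add_eq, eq_neg_iff_add_eq_zero, ← h4]; abel
    rw [e1] at h1
    rw [← h1]; abel
  -- consequences for twisted elements
  have tw : ∀ w s, w ∈ E → s ∈ E → dl σ w * (dl σ (dl σ s))⁻¹ ∈ Z →
      (∀ a, c (dl σ w) a = c (dl σ (dl σ s)) a) ∧
      (∀ a, c a (dl σ w) = c a (dl σ (dl σ s))) ∧ (∀ a, c (dl σ (dl σ w)) a = 0)
      ∧ (∀ a, c a (dl σ (dl σ w)) = 0) := by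
    intro w s hw hs h
    set y := dl σ w * (dl σ (dl σ s))⁻¹ with hy
    have e1 : dl σ w = y * dl σ (dl σ s) := by rw [hy]; group
    have e2 : dl σ (dl σ w) ∈ Z := by
      rw [e1]
      have e3 : dl σ (y * dl σ (dl σ s)) = σ y * y⁻¹ := by
        rw [dl, map_mul, h33 s hs]; group
      rw [e3]
      exact mul_mem (hσZ y h) (inv_mem h)
    refine ⟨fun a => ?_, fun a => ?_, fun a => cZl a _ e2, fun a => cZr a _ e2⟩
    · rw [e1, cl, cZl a y h, zero_add]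
    · rw [e1, cr, cZr a y h, zero_add]
  obtain ⟨t1, t2, t3, t4⟩ := tw w s hw hs hws
  obtain ⟨t1', t2', t3', t4'⟩ := tw w' s' hw' hs' hws'
  -- `w` commutes with `r'2`
  have a1 : c w (dl σ (dl σ r')) = 0 := by
    have h1 := R2 w hw r' hr'
    rw [t3, t1, c21 s hs r' hr'] at h1
    simpa using h1
  have a2 : c (dl σ (dl σ r)) w' = 0 := by
    have h1 := R2 r hr w' hw'
    rw [t4', t2', c12 r hr s' hs'] at h1
    simpa using h1
  have a3 : c w (dl σ s') = - c (dl σ (dl σ s)) s' := by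
    have h1 := R1 w hw s' hs'
    rw [t1, t1, c21 s hs s' hs', zero_add] at h1
    rw [eq_neg_iff_add_eq_zero, ← h1]; abel
  have a4 : c (dl σ s) w' = - c s (dl σ (dl σ s')) := by
    have h1 := R1 s hs w' hw'
    rw [t2', t2', c12 s hs s' hs', zero_add] at h1
    rw [eq_neg_iff_add_eq_zero, ← h1]
  have a5 := R2 s hs s' hs'
  have a6 := c3 (dl σ s) (dl σ s')
  rw [← c0]
  simp only [cl, cr, cZl _ z hz, cZr _ z' hz', add_zero, zero_add, a1, a2,
    c22 r hr r' hr', c12 s hs r' hr', c21 r hr s' hs', cE w hw w' hw', a3, a4]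
  have a7 : c (dl σ (dl σ s)) s' = - (c (dl σ s) (dl σ s') +
      c (dl σ s) (dl σ s')) - c s (dl σ (dl σ s')) := by
    rw [eq_sub_iff_add_eq, eq_neg_iff_add_eq_zero, ← a5]; abel
  rw [a7, ← a6]
  abel

end Iso

section Lim

variable {G : Type*} [Group G]

/-- Class 2 groups generated by a set. -/
lemma class2 (S : Set G) (Z : Subgroup G) (hZ : ∀ s ∈ S, ∀ z ∈ Z, s * z = z * s)
    (hS : ∀ s ∈ S, ∀ t ∈ S, ⁅s, t⁆ ∈ Z) :
    (∀ h ∈ closure S, ∀ z ∈ Z, h * z = z * h) ∧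
      ∀ h ∈ closure S, ∀ k ∈ closure S, ⁅h, k⁆ ∈ Z := by
  have h1 : ∀ h ∈ closure S, ∀ z ∈ Z, h * z = z * h := by
    have h2 : closure S ≤ centralizer (Z : Set G) := by
      rw [closure_le]
      intro s hs
      rw [SetLike.mem_coe, mem_centralizer_iff]
      exact fun z hz => (hZ s hs z hz).symm
    intro h hh z hz
    exact (mem_centralizer_iff.mp (h2 hh) z hz).symm
  have h3 : ∀ h ∈ closure S, ∀ t ∈ S, ⁅h, t⁆ ∈ Z := by
    intro h hh t ht
    induction hh using closure_induction with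
    | mem x hx => exact hS x hx t ht
    | one => rw [commutatorElement_one_left]; exact one_mem _
    | mul a b ha hb iha ihb =>
      have e : ⁅a * b, t⁆ = a * ⁅b, t⁆ * a⁻¹ * ⁅a, t⁆ := by
        simp only [commutatorElement_def]; group
      rw [e, h1 a ha _ ihb, mul_assoc ⁅b, t⁆, mul_inv_cancel, mul_one]
      exact mul_mem ihb iha
    | inv a ha iha =>
      have e : ⁅a⁻¹, t⁆ = a⁻¹ * ⁅a, t⁆⁻¹ * a := by
        simp only [commutatorElement_def]; group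
      rw [e, h1 a⁻¹ (inv_mem ha) _ (inv_mem iha), mul_assoc, inv_mul_cancel, mul_one]
      exact inv_mem iha
  refine ⟨h1, fun h hh k hk => ?_⟩
  induction hk using closure_induction with
  | mem x hx => exact h3 h hh x hx
  | one => rw [commutatorElement_one_right]; exact one_mem _
  | mul a b ha hb iha ihb =>
    have e : ⁅h, a * b⁆ = ⁅h, a⁆ * (a * ⁅h, b⁆ * a⁻¹) := by
      simp only [commutatorElement_def]; group
    rw [e, h1 a ha _ ihb, mul_assoc ⁅h, b⁆, mul_inv_cancel, mul_one]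
    exact mul_mem iha ihb
  | inv a ha iha =>
    have e : ⁅h, a⁻¹⁆ = a⁻¹ * ⁅h, a⁆⁻¹ * a := by
      simp only [commutatorElement_def]; group
    rw [e, h1 a⁻¹ (inv_mem ha) _ (inv_mem iha), mul_assoc, inv_mul_cancel, mul_one]
    exact inv_mem iha

lemma cube_mul {a b : G} (ha : a ^ 3 = 1) (hb : b ^ 3 = 1) (hc : ⁅b, a⁆ ^ 3 = 1)
    (hca : a * ⁅b, a⁆ = ⁅b, a⁆ * a) (hcb : b * ⁅b, a⁆ = ⁅b, a⁆ * b) : (a * b) ^ 3 = 1 := by
  set c := ⁅b, a⁆ with hcdef
  have h1 : b * a = c * a * b := by rw [hcdef, commutatorElement_def]; group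
  have e : (a * b) ^ 3 = a * (b * a) * (b * a) * b := by
    rw [pow_three]; group
  rw [e, h1]
  calc a * (c * a * b) * (c * a * b) * b = (a * c) * a * (b * c) * a * b * b := by group
    _ = (c * a) * a * (c * b) * a * b * b := by rw [hca, hcb]
    _ = c * (a * (a * c)) * (b * a) * b * b := by group
    _ = c * (a * (c * a)) * (c * a * b) * b * b := by rw [hca, h1]
    _ = c * ((a * c) * (a * c)) * a * b * b * b := by group
    _ = c * ((c * a) * (c * a)) * a * b * b * b := by rw [hca]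
    _ = c * (c * (a * c) * a) * a * b * b * b := by group
    _ = c * (c * (c * a) * a) * a * b * b * b := by rw [hca]
    _ = (c * c * c) * (a * a * a) * (b * b * b) := by simp only [mul_assoc]
    _ = 1 := by rw [← pow_three', ← pow_three', ← pow_three', ha, hb, hc, one_mul, one_mul]

/-- `E ∩ xEx⁻¹ ∩ x⁻¹Ex`. -/
def core (E : Subgroup G) (x : G) : Subgroup G where
  carrier := {g | g ∈ E ∧ x * g * x⁻¹ ∈ E ∧ x⁻¹ * g * x ∈ E}
  mul_mem' := by
    rintro a b ⟨a1, a2, a3⟩ ⟨b1, b2, b3⟩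
    refine ⟨mul_mem a1 b1, ?_, ?_⟩
    · have h := mul_mem a2 b2
      have e : x * a * x⁻¹ * (x * b * x⁻¹) = x * (a * b) * x⁻¹ := by group
      rwa [e] at h
    · have h := mul_mem a3 b3
      have e : x⁻¹ * a * x * (x⁻¹ * b * x) = x⁻¹ * (a * b) * x := by group
      rwa [e] at h
  one_mem' := by
    refine ⟨one_mem _, ?_, ?_⟩
    · rw [mul_one, mul_inv_cancel]; exact one_mem _
    · rw [mul_one, inv_mul_cancel]; exact one_mem _
  inv_mem' := by
    rintro a ⟨a1, a2, a3⟩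
    refine ⟨inv_mem a1, ?_, ?_⟩
    · have h := inv_mem a2
      have e : (x * a * x⁻¹)⁻¹ = x * a⁻¹ * x⁻¹ := by group
      rwa [e] at h
    · have h := inv_mem a3
      have e : (x⁻¹ * a * x)⁻¹ = x⁻¹ * a⁻¹ * x := by group
      rwa [e] at h

lemma core_le (E : Subgroup G) (x : G) : core E x ≤ E := fun _ h => h.1

/-- The hypotheses of the limit lemma. -/
structure LimHyp (E : Subgroup G) (x : G) : Prop where
  ea : EA E
  x3 : x ^ 3 = 1
  h01 : ∀ u ∈ E, ∀ v ∈ E, ⁅x * u * x⁻¹, v⁆ ∈ core E x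
  h33 : ∀ u ∈ E, x * ⁅x, ⁅x, u⁆⁆ = ⁅x, ⁅x, u⁆⁆ * x
  h22 : ∀ u ∈ E, ∀ v ∈ E, ⁅x, ⁅x, u⁆⁆ * ⁅x, ⁅x, v⁆⁆ = ⁅x, ⁅x, v⁆⁆ * ⁅x, ⁅x, u⁆⁆
  h12 : ∀ u ∈ E, ∀ v ∈ E, ⁅x, u⁆ * ⁅x, ⁅x, v⁆⁆ = ⁅x, ⁅x, v⁆⁆ * ⁅x, u⁆

lemma core_conj {E : Subgroup G} {x : G} (hx : x ^ 3 = 1) {g : G} (hg : g ∈ core E x) :
    x * g * x⁻¹ ∈ core E x := by
  have hx2 : x * x = x⁻¹ := by
    rw [pow_three, ← mul_assoc] at hx
    exact eq_inv_of_mul_eq_one_left hx
  have hx2' : x⁻¹ * x⁻¹ = x := by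
    rw [← mul_inv_rev, hx2, inv_inv]
  refine ⟨hg.2.1, ?_, ?_⟩
  · have e : x * (x * g * x⁻¹) * x⁻¹ = (x * x) * g * (x⁻¹ * x⁻¹) := by group
    rw [e, hx2, hx2']; exact hg.2.2
  · have e : x⁻¹ * (x * g * x⁻¹) * x = g := by group
    rw [e]; exact hg.1

lemma core_conj' {E : Subgroup G} {x : G} (hx : x ^ 3 = 1) {g : G} (hg : g ∈ core E x) :
    x⁻¹ * g * x ∈ core E x := by
  have hx2 : x * x = x⁻¹ := by
    rw [pow_three, ← mul_assoc] at hx
    exact eq_inv_of_mul_eq_one_left hx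
  have hx2' : x⁻¹ * x⁻¹ = x := by
    rw [← mul_inv_rev, hx2, inv_inv]
  have h := core_conj hx (core_conj hx hg)
  have e : x * (x * g * x⁻¹) * x⁻¹ = (x * x) * g * (x⁻¹ * x⁻¹) := by group
  rwa [e, hx2, hx2'] at h

lemma LimHyp.inf {E : Subgroup G} {x : G} (h : LimHyp E x) (N : Subgroup G) (hN : N.Normal) :
    LimHyp (E ⊓ N) x where
  ea := ⟨fun a ha b hb => h.ea.1 a ha.1 b hb.1, fun a ha => h.ea.2 a ha.1⟩
  x3 := h.x3
  h01 := by
    intro u hu v hv
    have h1 := h.h01 u hu.1 v hv.1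
    have h2 : ⁅x * u * x⁻¹, v⁆ ∈ N := by
      rw [commutatorElement_def]
      refine mul_mem (mul_mem (mul_mem (hN.conj_mem u hu.2 x) hv.2) ?_) (inv_mem hv.2)
      exact inv_mem (hN.conj_mem u hu.2 x)
    refine ⟨⟨h1.1, h2⟩, ⟨h1.2.1, hN.conj_mem _ h2 x⟩, ⟨h1.2.2, ?_⟩⟩
    have := hN.conj_mem _ h2 x⁻¹
    rwa [inv_inv] at this
  h33 := fun u hu => h.h33 u hu.1
  h22 := fun u hu v hv => h.h22 u hu.1 v hv.1
  h12 := fun u hu v hv => h.h12 u hu.1 v hv.1

/-- Existence of the limit subgroup. -/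
lemma star_exists [Finite G] {E : Subgroup G} {x : G} (h : LimHyp E x) :
    ∃ S : Subgroup G, EA S ∧ (∀ g, g ∈ S ↔ ∃ w ∈ E, ∃ s ∈ E, ∃ r ∈ E, ∃ z ∈ core E x,
      ⁅x, w⁆ * ⁅x, ⁅x, s⁆⁆⁻¹ ∈ core E x ∧ g = w * ⁅x, s⁆ * ⁅x, ⁅x, r⁆⁆ * z) ∧
      Nat.card E ≤ Nat.card S := by
  have hx := h.x3
  have hx2 : x * x = x⁻¹ := by
    rw [pow_three, ← mul_assoc] at hx
    exact eq_inv_of_mul_eq_one_left hx
  have hx2' : x⁻¹ * x⁻¹ = x := by
    rw [← mul_inv_rev, hx2, inv_inv]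
  set Z := core E x with hZdef
  let S : Set G := {g | g ∈ E ∨ x * g * x⁻¹ ∈ E ∨ x⁻¹ * g * x ∈ E}
  have hSx : ∀ g ∈ S, x * g * x⁻¹ ∈ S := by
    rintro g (hg | hg | hg)
    · right; right
      have e : x⁻¹ * (x * g * x⁻¹) * x = g := by group
      rw [e]; exact hg
    · left; exact hg
    · right; left
      have e : x * (x * g * x⁻¹) * x⁻¹ = (x * x) * g * (x⁻¹ * x⁻¹) := by group
      rw [e, hx2, hx2']; exact hg
  have hSx' : ∀ g ∈ S, x⁻¹ * g * x ∈ S := by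
    intro g hg
    have h1 := hSx _ (hSx g hg)
    have e : x * (x * g * x⁻¹) * x⁻¹ = (x * x) * g * (x⁻¹ * x⁻¹) := by group
    rwa [e, hx2, hx2'] at h1
  have hZx : ∀ z ∈ Z, x * z * x⁻¹ ∈ Z := fun z hz => core_conj hx hz
  have hZx' : ∀ z ∈ Z, x⁻¹ * z * x ∈ Z := fun z hz => core_conj' hx hz
  have hEZ : ∀ s ∈ E, ∀ z ∈ Z, s * z = z * s := fun s hs z hz => h.ea.1 s hs z hz.1
  have hZS : ∀ s ∈ S, ∀ z ∈ Z, s * z = z * s := by
    rintro s (hs | hs | hs) z hz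
    · exact hEZ s hs z hz
    · have h1 := hEZ _ hs _ (hZx z hz)
      calc s * z = x⁻¹ * ((x * s * x⁻¹) * (x * z * x⁻¹)) * x := by group
        _ = x⁻¹ * ((x * z * x⁻¹) * (x * s * x⁻¹)) * x := by rw [h1]
        _ = z * s := by group
    · have h1 := hEZ _ hs _ (hZx' z hz)
      calc s * z = x * ((x⁻¹ * s * x) * (x⁻¹ * z * x)) * x⁻¹ := by group
        _ = x * ((x⁻¹ * z * x) * (x⁻¹ * s * x)) * x⁻¹ := by rw [h1]
        _ = z * s := by group
  have hES : ∀ s ∈ E, ∀ t ∈ S, ⁅s, t⁆ ∈ Z := by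
    rintro s hs t (ht | ht | ht)
    · rw [commutatorElement_eq_one_iff_mul_comm.mpr (h.ea.1 s hs t ht)]; exact one_mem _
    · have h1 := hZx' _ (h.h01 s hs _ ht)
      have e : x⁻¹ * ⁅x * s * x⁻¹, x * t * x⁻¹⁆ * x = ⁅s, t⁆ := by
        simp only [commutatorElement_def]; group
      rwa [e] at h1
    · have h1 := h.h01 _ ht s hs
      have e : x * (x⁻¹ * t * x) * x⁻¹ = t := by group
      rw [e] at h1
      rw [← commutatorElement_inv]
      exact inv_mem h1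
  have hSS : ∀ s ∈ S, ∀ t ∈ S, ⁅s, t⁆ ∈ Z := by
    rintro s (hs | hs | hs) t ht
    · exact hES s hs t ht
    · have h1 := hZx' _ (hES _ hs _ (hSx t ht))
      have e : x⁻¹ * ⁅x * s * x⁻¹, x * t * x⁻¹⁆ * x = ⁅s, t⁆ := by
        simp only [commutatorElement_def]; group
      rwa [e] at h1
    · have h1 := hZx _ (hES _ hs _ (hSx' t ht))
      have e : x * ⁅x⁻¹ * s * x, x⁻¹ * t * x⁆ * x⁻¹ = ⁅s, t⁆ := by
        simp only [commutatorElement_def]; group
      rwa [e] at h1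
  set H := closure S with hHdef
  obtain ⟨hHZ, hHH⟩ := class2 S Z hZS hSS
  have hSH : ∀ s ∈ S, s ∈ H := fun s hs => subset_closure hs
  have hEH : E ≤ H := fun s hs => hSH s (Or.inl hs)
  have hHx : ∀ g ∈ H, x * g * x⁻¹ ∈ H := by
    intro g hg
    induction hg using closure_induction with
    | mem g hg => exact hSH _ (hSx g hg)
    | one => rw [mul_one, mul_inv_cancel]; exact one_mem _
    | mul a b _ _ iha ihb =>
      have e : x * (a * b) * x⁻¹ = (x * a * x⁻¹) * (x * b * x⁻¹) := by group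
      rw [e]; exact mul_mem iha ihb
    | inv a _ iha =>
      have e : x * a⁻¹ * x⁻¹ = (x * a * x⁻¹)⁻¹ := by group
      rw [e]; exact inv_mem iha
  have hZ3 : ∀ z ∈ Z, z ^ 3 = 1 := fun z hz => h.ea.2 z hz.1
  have hH3 : ∀ g ∈ H, g ^ 3 = 1 := by
    intro g hg
    induction hg using closure_induction with
    | mem g hg =>
      rcases hg with hg | hg | hg
      · exact h.ea.2 g hg
      · have h1 := h.ea.2 _ hg
        rw [conj_pow, mul_inv_eq_one, mul_eq_left] at h1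
        exact h1
      · have h1 := h.ea.2 _ hg
        have e : x⁻¹ * g * x = x⁻¹ * g * (x⁻¹)⁻¹ := by group
        rw [e, conj_pow, mul_inv_eq_one, mul_eq_left] at h1
        exact h1
    | one => exact one_pow 3
    | mul a b ha hb iha ihb =>
      have hc := hHH b hb a ha
      exact cube_mul iha ihb (hZ3 _ hc) (hHZ a ha _ hc) (hHZ b hb _ hc)
    | inv a _ iha => rw [inv_pow, iha, inv_one]
  -- the group `H` with the action of `x`
  let σ : H →* H := ((MulAut.conj x).toMonoidHom.comp H.subtype).codRestrict H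
    (fun g => hHx g g.2)
  have hσ : ∀ g : H, ((σ g : H) : G) = x * g * x⁻¹ := fun g => rfl
  have hdl : ∀ g : H, ((dl σ g : H) : G) = ⁅x, (g : G)⁆ := fun g => rfl
  let Es := E.subgroupOf H
  let Zs := Z.subgroupOf H
  have hZsc : ∀ z ∈ Zs, ∀ g : H, g * z = z * g := by
    intro z hz g
    exact Subtype.ext (hHZ g g.2 z hz)
  have hcomm : ∀ a b : H, ⁅a, b⁆ ∈ Zs := fun a b => hHH a a.2 b b.2
  have hcen : ∀ a b : H, ⁅a, b⁆ ∈ center H := by
    intro a b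
    rw [mem_center_iff]
    exact fun g => hZsc _ (hcomm a b) g
  have hσZ : ∀ z ∈ Zs, σ z ∈ Zs := fun z hz => hZx z hz
  have hEs3 : ∀ e ∈ Es, e ^ 3 = 1 := fun e _ => Subtype.ext (hH3 e e.2)
  have hH3' : ∀ e : H, e ^ 3 = 1 := fun e => Subtype.ext (hH3 e e.2)
  have h33 : ∀ u ∈ Es, σ (dl σ (dl σ u)) = dl σ (dl σ u) := by
    intro u hu
    apply Subtype.ext
    have h1 := h.h33 u hu
    rw [hσ, hdl, hdl, h1, mul_inv_cancel_right]
  obtain ⟨T, hT, hTc⟩ := count_H σ Es Zs hZsc hcomm hσZ (fun z hz => hz.1) hEs3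
    (fun u hu => by
      have h1 : dl σ (dl σ (dl σ u)) = 1 := by
        rw [dl, h33 u hu, mul_inv_cancel]
      rw [h1]; exact one_mem _)
    (fun u hu hz => by
      have h1 : ⁅x, (u : G)⁆ ∈ Z := hz
      have e1 : x * u * x⁻¹ = ⁅x, (u : G)⁆ * u := by rw [commutatorElement_def]; group
      have h2 : x * u * x⁻¹ ∈ E := by
        rw [e1]; exact mul_mem h1.1 hu
      have e2 : x⁻¹ * u * x = x * (x * u * x⁻¹) * x⁻¹ := by
        have e : x * (x * u * x⁻¹) * x⁻¹ = (x * x) * u * (x⁻¹ * x⁻¹) := by group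
        rw [e, hx2, hx2']
      have h3 : x⁻¹ * u * x ∈ E := by
        rw [e2, e1]
        have e : x * (⁅x, (u : G)⁆ * u) * x⁻¹ = (x * ⁅x, (u : G)⁆ * x⁻¹) * (x * u * x⁻¹) := by
          group
        rw [e]
        exact mul_mem (hZx _ h1).1 h2
      exact ⟨hu, h2, h3⟩)
  refine ⟨T.map H.subtype, ⟨?_, ?_⟩, ?_, ?_⟩
  · rintro _ ⟨a, ha, rfl⟩ _ ⟨b, hb, rfl⟩
    obtain ⟨w, hw, s, hs, r, hr, z, hz, hws, rfl⟩ := (hT a).mp ha
    obtain ⟨w', hw', s', hs', r', hr', z', hz', hws', rfl⟩ := (hT b).mp hb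
    have := iso_H hcen σ Es Zs hZsc hσZ
      (fun u hu v hv => Subtype.ext (h.ea.1 u hu v hv)) hH3' h33
      (fun u hu v hv => Subtype.ext (h.h22 u hu v hv))
      (fun u hu v hv => Subtype.ext (h.h12 u hu v hv)) hw hs hr hz hws hw' hs' hr' hz' hws'
    exact congrArg (fun g : H => (g : G)) this
  · rintro _ ⟨a, _, rfl⟩
    exact hH3 a a.2
  · intro g
    constructor
    · rintro ⟨a, ha, rfl⟩
      obtain ⟨w, hw, s, hs, r, hr, z, hz, hws, rfl⟩ := (hT a).mp ha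
      exact ⟨w, hw, s, hs, r, hr, z, hz, hws, rfl⟩
    · rintro ⟨w, hw, s, hs, r, hr, z, hz, hws, rfl⟩
      refine ⟨⟨w, hEH hw⟩ * dl σ ⟨s, hEH hs⟩ * dl σ (dl σ ⟨r, hEH hr⟩) *
        ⟨z, hEH hz.1⟩, ?_, rfl⟩
      exact (hT _).mpr ⟨⟨w, hEH hw⟩, hw, ⟨s, hEH hs⟩, hs, ⟨r, hEH hr⟩, hr, ⟨z, hEH hz.1⟩, hz,
        hws, rfl⟩
  · rw [Subgroup.card_subtype]
    refine le_trans (le_of_eq ?_) hTc
    exact (Nat.card_congr (subgroupOfEquivOfLe hEH).toEquiv).symm

/-- The limit lemma. -/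
theorem limit [Finite G] {E : Subgroup G} {x : G} (h : LimHyp E x) :
    ∃ S : Subgroup G, EA S ∧ Nat.card E ≤ Nat.card S ∧
      (∀ N : Subgroup G, N.Normal → Nat.card (E ⊓ N : Subgroup G) ≤
        Nat.card (S ⊓ N : Subgroup G)) ∧
      core E x ≤ S ∧ (∀ t ∈ E, ⁅x, ⁅x, t⁆⁆ ∈ S) ∧
      ∀ t ∈ E, ⁅x, ⁅x, t⁆⁆ ∈ core E x → ⁅x, t⁆ ∈ S := by
  obtain ⟨S, hS1, hS2, hS3⟩ := star_exists h
  refine ⟨S, hS1, hS3, ?_, ?_, ?_, ?_⟩
  · intro N hN
    obtain ⟨T, hT1, hT2, hT3⟩ := star_exists (h.inf N hN)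
    refine le_trans hT3 (Subgroup.card_le_of_le ?_)
    intro g hg
    have hmem : ∀ u ∈ N, ⁅x, u⁆ ∈ N := by
      intro u hu
      rw [commutatorElement_def]
      exact mul_mem (hN.conj_mem u hu x) (inv_mem hu)
    have hc : ∀ z ∈ core (E ⊓ N) x, z ∈ core E x :=
      fun z hz => ⟨hz.1.1, hz.2.1.1, hz.2.2.1⟩
    obtain ⟨w, hw, s, hs, r, hr, z, hz, hws, rfl⟩ := (hT2 g).mp hg
    refine ⟨(hS2 _).mpr ⟨w, hw.1, s, hs.1, r, hr.1, z, hc z hz, hc _ hws, rfl⟩, ?_⟩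
    exact mul_mem (mul_mem (mul_mem hw.2 (hmem s hs.2)) (hmem _ (hmem r hr.2))) hz.1.2
  · intro z hz
    refine (hS2 z).mpr ⟨1, one_mem _, 1, one_mem _, 1, one_mem _, z, hz, ?_, ?_⟩
    · simp
    · simp
  · intro t ht
    refine (hS2 _).mpr ⟨1, one_mem _, 1, one_mem _, t, ht, 1, one_mem _, ?_, ?_⟩
    · simp
    · simp
  · intro t ht hc
    refine (hS2 _).mpr ⟨1, one_mem _, t, ht, 1, one_mem _, 1, one_mem _, ?_, ?_⟩
    · rw [commutatorElement_one_right, one_mul]; exact inv_mem hc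
    · simp

end Lim

end MP67
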