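import Mathlib
import Pool.Agent.Lib.MP_67dbdc_al.Limit

/-!
Pairs of elementary abelian subgroups `E`, `F` of a group such that `xex⁻¹` normalises `E` and
`exe⁻¹` normalises `F` for all `e ∈ E`, `x ∈ F`.
-/

namespace MP67

open Subgroup
open scoped commutatorElement

universe u

variable {G : Type u} [Group G]

lemma nz {E : Subgroup G} {g h : G} (hg : g ∈ normalizer (E : Set G)) (hh : h ∈ E) :
    g * h * g⁻¹ ∈ E := (mem_normalizer_iff.mp hg h).mp hh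

lemma nz' {E : Subgroup G} {g h : G} (hg : g ∈ normalizer (E : Set G)) (hh : h ∈ E) :
    g⁻¹ * h * g ∈ E := by
  have := nz (inv_mem hg) hh
  rwa [inv_inv] at this

lemma self_nz {E : Subgroup G} {g : G} (hg : g ∈ E) : g ∈ normalizer (E : Set G) :=
  le_normalizer hg

lemma nz_comm {E : Subgroup G} {g h : G} (hg : g ∈ normalizer (E : Set G)) (hh : h ∈ E) :
    ⁅g, h⁆ ∈ E := by
  rw [commutatorElement_def]
  exact mul_mem (nz hg hh) (inv_mem hh)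

lemma comm_nz {E : Subgroup G} {g h : G} (hg : g ∈ normalizer (E : Set G)) (hh : h ∈ E) :
    ⁅h, g⁆ ∈ E := by
  rw [← commutatorElement_inv]
  exact inv_mem (nz_comm hg hh)

/-- Pairs of elementary abelian subgroups with mutually normalising conjugates. -/
structure PairHyp (E F : Subgroup G) : Prop where
  eaE : EA E
  eaF : EA F
  hA : ∀ e ∈ E, ∀ x ∈ F, x * e * x⁻¹ ∈ normalizer (E : Set G)
  hB : ∀ e ∈ E, ∀ x ∈ F, e * x * e⁻¹ ∈ normalizer (F : Set G)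

/-- The centraliser of `F` in `E`. -/
def cE (E F : Subgroup G) : Subgroup G where
  carrier := {w | w ∈ E ∧ ∀ x ∈ F, x * w = w * x}
  mul_mem' := by
    rintro a b ⟨a1, a2⟩ ⟨b1, b2⟩
    refine ⟨mul_mem a1 b1, fun x hx => ?_⟩
    rw [← mul_assoc, a2 x hx, mul_assoc, b2 x hx, mul_assoc]
  one_mem' := ⟨one_mem _, fun x _ => by simp⟩
  inv_mem' := by
    rintro a ⟨a1, a2⟩
    refine ⟨inv_mem a1, fun x hx => ?_⟩
    have h : Commute x a := a2 x hx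
    exact h.inv_right.eq

namespace PairHyp

variable {E F : Subgroup G} (P : PairHyp E F)

include P

lemma symm : PairHyp F E := ⟨P.eaF, P.eaE, fun x hx e he => P.hB e he x hx,
  fun x hx e he => P.hA e he x hx⟩

lemma commE {x s : G} (hx : x ∈ F) (hs : s ∈ E) : ⁅x, s⁆ ∈ normalizer (E : Set G) := by
  rw [commutatorElement_def]
  exact mul_mem (P.hA s hs x hx) (self_nz (inv_mem hs))

lemma commF {x s : G} (hx : x ∈ F) (hs : s ∈ E) : ⁅x, s⁆ ∈ normalizer (F : Set G) := by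
  have h := P.hB s hs x⁻¹ (inv_mem hx)
  have e : ⁅x, s⁆ = x * (s * x⁻¹ * s⁻¹) := by rw [commutatorElement_def]; group
  rw [e]
  exact mul_mem (self_nz hx) h

lemma zF {x' x s : G} (hx' : x' ∈ F) (hx : x ∈ F) (hs : s ∈ E) : ⁅x', ⁅x, s⁆⁆ ∈ F :=
  comm_nz (P.commF hx hs) hx'

lemma zN {x' x s : G} (hx' : x' ∈ F) (hx : x ∈ F) (hs : s ∈ E) :
    ⁅x', ⁅x, s⁆⁆ ∈ normalizer (E : Set G) := by
  have e : ⁅x', ⁅x, s⁆⁆ = ((x' * x) * s * (x' * x)⁻¹) * (x' * s * x'⁻¹)⁻¹ * ⁅x, s⁆⁻¹ := by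
    simp only [commutatorElement_def]; group
  rw [e]
  exact mul_mem (mul_mem (P.hA s hs _ (mul_mem hx' hx)) (inv_mem (P.hA s hs x' hx')))
    (inv_mem (P.commE hx hs))

lemma zs {x' x s : G} (hx' : x' ∈ F) (hx : x ∈ F) (hs : s ∈ E) :
    s⁻¹ * ⁅x', ⁅x, s⁆⁆ * s ∈ F := by
  have hz := P.zF hx' hx hs
  have h1 := P.eaF.1 _ hz x hx
  have h2 := P.eaF.1 x' hx' x hx
  have h3 : ⁅x', ⁅x, s⁆⁆ = x⁻¹ * ⁅x', ⁅x, s⁆⁆ * x := by
    rw [mul_assoc, h1]; group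
  have h4 : x⁻¹ * x' * x = x' := by rw [mul_assoc, h2]; group
  have e : s⁻¹ * (x⁻¹ * ⁅x', ⁅x, s⁆⁆ * x) * s =
      s⁻¹ * (x⁻¹ * x' * x) * s * x⁻¹ * (s⁻¹ * x' * s)⁻¹ * x := by
    simp only [commutatorElement_def]; group
  rw [h3, e, h4]
  have h5 : s⁻¹ * x' * s ∈ normalizer (F : Set G) := by
    have := P.hB s⁻¹ (inv_mem hs) x' hx'
    rwa [inv_inv] at this
  exact mul_mem (nz h5 (inv_mem hx)) hx

/-- `E ∩ F` is centralised by `E` and by `F`. -/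
lemma ef_E {w e : G} (hw : w ∈ E) (he : e ∈ E) : e * w = w * e := P.eaE.1 e he w hw

lemma zEF {x' x s : G} (hx' : x' ∈ F) (hx : x ∈ F) (hs : s ∈ E) :
    ⁅⁅x', ⁅x, s⁆⁆, s⁆ ∈ E ∧ ⁅⁅x', ⁅x, s⁆⁆, s⁆ ∈ F := by
  set z := ⁅x', ⁅x, s⁆⁆ with hz
  have hzN : z ∈ normalizer (E : Set G) := P.zN hx' hx hs
  have hzF : z ∈ F := P.zF hx' hx hs
  refine ⟨nz_comm hzN hs, ?_⟩
  have h1 : z * s * z⁻¹ ∈ E := nz hzN hs
  have h2 : ⁅z, s⁆ = s⁻¹ * z * s * z⁻¹ := by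
    rw [commutatorElement_def, P.eaE.1 _ h1 _ (inv_mem hs)]; group
  rw [h2]
  exact mul_mem (P.zs hx' hx hs) (inv_mem hzF)

lemma y1_nF {x s s' : G} (hx : x ∈ F) (hs : s ∈ E) (hs' : s' ∈ E) :
    ⁅x * s * x⁻¹, s'⁆ ∈ normalizer (F : Set G) := by
  have h0 : s * s' = s' * s := P.eaE.1 s hs s' hs'
  have e : ⁅x * s * x⁻¹, s'⁆ = ⁅x, s⁆ * (s * s') * s⁻¹ * ⁅x, s⁆⁻¹ * s'⁻¹ := by
    simp only [commutatorElement_def]; group
  have e2 : ⁅x, s⁆ * (s' * s) * s⁻¹ * ⁅x, s⁆⁻¹ * s'⁻¹ =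
      ⁅x, s⁆ * ((s' * s) * x * (s' * s)⁻¹) * (s' * x⁻¹ * s'⁻¹) := by
    simp only [commutatorElement_def]; group
  rw [e, h0, e2]
  exact mul_mem (mul_mem (P.commF hx hs) (P.hB _ (mul_mem hs' hs) x hx))
    (P.hB s' hs' _ (inv_mem hx))

lemma y1_core {x s s' : G} (hx : x ∈ F) (hs : s ∈ E) (hs' : s' ∈ E) :
    ⁅x * s * x⁻¹, s'⁆ ∈ core E x := by
  set y1 := ⁅x * s * x⁻¹, s'⁆ with hy1
  have h1 : y1 ∈ E := nz_comm (P.hA s hs x hx) hs'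
  have h2 : y1 ∈ normalizer (F : Set G) := P.y1_nF hx hs hs'
  have h3 : x⁻¹ * y1 * x ∈ E := by
    have e : x⁻¹ * y1 * x = ⁅s, x⁻¹ * s' * x⁆ := by
      rw [hy1]; simp only [commutatorElement_def]; group
    rw [e]
    have h4 := P.hA s' hs' x⁻¹ (inv_mem hx)
    rw [inv_inv] at h4
    exact comm_nz h4 hs
  set ζ := x⁻¹ * y1 * x * y1⁻¹ with hζ
  have hζE : ζ ∈ E := mul_mem h3 (inv_mem h1)
  have hζF : ζ ∈ F := by
    have e : ζ = x⁻¹ * (y1 * x * y1⁻¹) := by rw [hζ]; group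
    rw [e]
    exact mul_mem (inv_mem hx) (nz h2 hx)
  have h5 : x * ζ = ζ * x := P.eaF.1 x hx ζ hζF
  refine ⟨h1, ?_, h3⟩
  have h6 : y1 = x * ζ * y1 * x⁻¹ := by rw [hζ]; group
  have h7 : x * y1 * x⁻¹ = ζ⁻¹ * y1 := by
    rw [h5] at h6
    have h8 : ζ⁻¹ * y1 = ζ⁻¹ * (ζ * x * y1 * x⁻¹) := by rw [← h6]
    rw [h8]; group
  rw [h7]
  exact mul_mem (inv_mem hζE) h1

/-- The easy half of the `κ`-lemma. -/
lemma kappa {x z e : G} (hx : x ∈ F) (hz : z ∈ F) (hzN : z ∈ normalizer (E : Set G))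
    (he : e ∈ E) (h : x * ⁅z, e⁆ = ⁅z, e⁆ * x) : ⁅x, e⁆ * z = z * ⁅x, e⁆ := by
  set w := ⁅z, e⁆ with hw
  have hwE : w ∈ E := nz_comm hzN he
  have h1 : z * x = x * z := P.eaF.1 z hz x hx
  have h2 : w * e = e * w := P.eaE.1 w hwE e he
  have h3 : z * e * z⁻¹ = w * e := by rw [hw, commutatorElement_def]; group
  have h5 : Commute w ⁅x, e⁆ := by
    have c1 : Commute w x := h.symm
    have c2 : Commute w e := h2
    rw [commutatorElement_def]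
    exact ((c1.mul_right c2).mul_right c1.inv_right).mul_right c2.inv_right
  have h4 : z * ⁅x, e⁆ * z⁻¹ = ⁅x, e⁆ := by
    calc z * ⁅x, e⁆ * z⁻¹ = (z * x) * z⁻¹ * (z * e * z⁻¹) * ((z * x) * z⁻¹)⁻¹ *
          (z * e * z⁻¹)⁻¹ := by rw [commutatorElement_def]; group
      _ = (x * z) * z⁻¹ * (w * e) * ((x * z) * z⁻¹)⁻¹ * (w * e)⁻¹ := by rw [h1, h3]
      _ = (x * w) * e * x⁻¹ * (w * e)⁻¹ := by group
      _ = (w * x) * e * x⁻¹ * (w * e)⁻¹ := by rw [h]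
      _ = (w * ⁅x, e⁆) * w⁻¹ := by rw [commutatorElement_def]; group
      _ = (⁅x, e⁆ * w) * w⁻¹ := by rw [h5.eq]
      _ = ⁅x, e⁆ := by group
  calc ⁅x, e⁆ * z = (z * ⁅x, e⁆ * z⁻¹) * z := by rw [h4]
    _ = z * ⁅x, e⁆ := by group

lemma ef_cE {w : G} (hw : w ∈ E) (hw' : w ∈ F) : w ∈ cE E F :=
  ⟨hw, fun x hx => P.eaF.1 x hx w hw'⟩

/-- The pairing `(F ∩ N(E)) × E → E / C_E(F)` given by commutators. -/
lemma exists_psi : ∃ (A : Type u) (_ : AddCommGroup A) (ψ : G → G → A),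
    (∀ μ ∈ F, μ ∈ normalizer (E : Set G) → ∀ e ∈ E, (ψ μ e = 0 ↔ ⁅μ, e⁆ ∈ cE E F)) ∧
    (∀ μ ∈ F, μ ∈ normalizer (E : Set G) → ∀ e ∈ E, ∀ e' ∈ E, ψ μ (e * e') = ψ μ e + ψ μ e') ∧
    (∀ μ ∈ F, μ ∈ normalizer (E : Set G) → ∀ μ' ∈ F, μ' ∈ normalizer (E : Set G) →
      ∀ e ∈ E, ψ (μ * μ') e = ψ μ e + ψ μ' e) ∧
    ∀ a : A, a + a + a = 0 := by
  classical
  let _ : CommGroup E :=
    { (inferInstance : Group E) with
      mul_comm := fun a b => Subtype.ext (P.eaE.1 a a.2 b b.2) }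
  let C : Subgroup E := (cE E F).subgroupOf E
  let ψ : G → G → Additive (E ⧸ C) := fun μ e =>
    if h : ⁅μ, e⁆ ∈ E then Additive.ofMul (QuotientGroup.mk (⟨⁅μ, e⁆, h⟩ : E)) else 0
  have hψ : ∀ μ e, ∀ h : ⁅μ, e⁆ ∈ E,
      ψ μ e = Additive.ofMul (QuotientGroup.mk (⟨⁅μ, e⁆, h⟩ : E)) := by
    intro μ e h
    simp only [ψ, h, dif_pos]
  refine ⟨Additive (E ⧸ C), inferInstance, ψ, ?_, ?_, ?_, ?_⟩
  · intro μ _ hμN e he
    rw [hψ μ e (nz_comm hμN he), ofMul_eq_zero, QuotientGroup.eq_one_iff]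
    rfl
  · intro μ _ hμN e he e' he'
    rw [hψ μ e (nz_comm hμN he), hψ μ e' (nz_comm hμN he'),
      hψ μ (e * e') (nz_comm hμN (mul_mem he he')), ← ofMul_mul, ← QuotientGroup.mk_mul]
    congr 2
    apply Subtype.ext
    show ⁅μ, e * e'⁆ = ⁅μ, e⁆ * ⁅μ, e'⁆
    have h1 : ⁅μ, e * e'⁆ = ⁅μ, e⁆ * (e * ⁅μ, e'⁆ * e⁻¹) := by
      simp only [commutatorElement_def]; group
    rw [h1, P.eaE.1 e he _ (nz_comm hμN he')]
    group
  · intro μ hμ hμN μ' hμ' hμN' e he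
    rw [hψ μ e (nz_comm hμN he), hψ μ' e (nz_comm hμN' he),
      hψ (μ * μ') e (nz_comm (mul_mem hμN hμN') he), ← ofMul_mul, ← QuotientGroup.mk_mul]
    congr 1
    rw [QuotientGroup.eq]
    have h0 : ⁅μ', e⁆ ∈ E := nz_comm hμN' he
    have h1 : ⁅μ * μ', e⁆ = ⁅μ, ⁅μ', e⁆⁆ * ⁅μ', e⁆ * ⁅μ, e⁆ := by
      simp only [commutatorElement_def]; group
    have h2 : ⁅μ, ⁅μ', e⁆⁆ ∈ cE E F := by
      refine P.ef_cE (nz_comm hμN h0) ?_
      exact comm_nz (P.commF hμ' he) hμ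
    have h3 := P.eaE.1 _ h0 _ (nz_comm hμN he)
    show (⁅μ * μ', e⁆)⁻¹ * (⁅μ, e⁆ * ⁅μ', e⁆) ∈ cE E F
    have h4 : (⁅μ * μ', e⁆)⁻¹ * (⁅μ, e⁆ * ⁅μ', e⁆) = ⁅μ, ⁅μ', e⁆⁆⁻¹ := by
      have c1 := P.eaE.1 _ h2.1 _ (mul_mem h0 (nz_comm hμN he))
      rw [h1, ← h3, mul_assoc, c1]
      group
    rw [h4]
    exact inv_mem h2
  · intro a
    have h1 : ∀ b : E ⧸ C, b * b * b = 1 := by
      intro b
      induction b using QuotientGroup.induction_on with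
      | H b =>
      rw [← QuotientGroup.mk_mul, ← QuotientGroup.mk_mul, ← pow_three']
      have : b ^ 3 = 1 := Subtype.ext (P.eaE.2 b b.2)
      rw [this]; rfl
    exact h1 (Additive.toMul a)

end PairHyp

end MP67
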