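import Mathlib
import Pool.Agent.Lib.MP_67dbdc_al.Pair

/-!
The antisymmetry argument that kills the form `κ` under a commutator condition.
-/

namespace MP67

open Subgroup
open scoped commutatorElement

universe u

variable {G : Type u} [Group G]

/-- The conjugate `yEy⁻¹`. -/
def cj (y : G) (E : Subgroup G) : Subgroup G := E.map (MulAut.conj y).toMonoidHom

lemma mem_cj {y x : G} {E : Subgroup G} : x ∈ cj y E ↔ ∃ t ∈ E, y * t * y⁻¹ = x := by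
  constructor
  · rintro ⟨t, ht, rfl⟩; exact ⟨t, ht, rfl⟩
  · rintro ⟨t, ht, rfl⟩; exact ⟨t, ht, rfl⟩

/-- The local hypotheses. -/
structure LocHyp (E : Subgroup G) (y : G) (Ω R D V Y : Subgroup G) : Prop where
  P : PairHyp E (cj y E)
  Rn : R.Normal
  Yn : Y.Normal
  EΩ : E ≤ Ω
  FΩ : cj y E ≤ Ω
  hR : ∀ t ∈ E, ⁅y, t⁆ ∈ R
  hD : ∀ c ∈ R, ∀ t ∈ Ω, ⁅c, t⁆ ∈ D
  DR : D ≤ R
  hV : ∀ d ∈ D, ∀ t ∈ Ω, ⁅d, t⁆ ∈ V
  hY1 : ∀ c ∈ R, ∀ v ∈ V, ⁅c, v⁆ ∈ Y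
  hY2 : ∀ d ∈ ⁅R, R⁆, ∀ t ∈ Ω, ⁅d, t⁆ ∈ Y
  hL : ∀ l ∈ cj y E, l ∈ normalizer (E : Set G) → l ∈ Y → ∀ e ∈ E, ⁅l, e⁆ ∈ cE E (cj y E)

lemma inv_comm {A : Subgroup G} {a b : G} (h : ⁅a, b⁆ ∈ A) : ⁅b, a⁆ ∈ A := by
  rw [← commutatorElement_inv]; exact inv_mem h

lemma mulRel (x' x r s : G) : ⁅x', ⁅x, r * s⁆⁆ = ⁅x', ⁅x, r⁆⁆ *
    (⁅x, r⁆ * ⁅x', ⁅r, ⁅x, s⁆⁆⁆ * ⁅x, r⁆⁻¹) *
    ((⁅x, r⁆ * ⁅⁅r, ⁅x, s⁆⁆, ⁅x', ⁅x, s⁆⁆⁆ * ⁅x, r⁆⁻¹) * ⁅⁅x, r⁆, ⁅x', ⁅x, s⁆⁆⁆ *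
      ⁅x', ⁅x, s⁆⁆) := by
  simp only [commutatorElement_def]; group

namespace LocHyp

variable {E : Subgroup G} {y : G} {Ω R D V Y : Subgroup G} (L : LocHyp E y Ω R D V Y)

include L

lemma x_comm {t s : G} (ht : t ∈ E) (hs : s ∈ E) : ⁅y * t * y⁻¹, s⁆ = ⁅⁅y, t⁆, s⁆ := by
  have h : t * s = s * t := L.P.eaE.1 t ht s hs
  have e1 : ⁅y * t * y⁻¹, s⁆ = ⁅y, t⁆ * (t * s) * t⁻¹ * ⁅y, t⁆⁻¹ * s⁻¹ := by
    simp only [commutatorElement_def]; group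
  rw [e1, h]
  simp only [commutatorElement_def]; group

lemma x_commD {x s : G} (hx : x ∈ cj y E) (hs : s ∈ E) : ⁅x, s⁆ ∈ D := by
  obtain ⟨t, ht, rfl⟩ := mem_cj.mp hx
  rw [L.x_comm ht hs]
  exact L.hD _ (L.hR t ht) _ (L.EΩ hs)

/-- All the `z`'s are in the left kernel of the pairing. -/
lemma chain {r s t u : G} (hr : r ∈ E) (hs : s ∈ E) (ht : t ∈ E) (hu : u ∈ E) :
    ⁅⁅y * u * y⁻¹, ⁅y * t * y⁻¹, s⁆⁆, r⁆ ∈ cE E (cj y E) := by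
  obtain ⟨A, _, ψ, ψ0, ψr, ψl, ψ3⟩ := L.P.exists_psi
  have P := L.P
  set F := cj y E with hF
  have hxF : ∀ t ∈ E, y * t * y⁻¹ ∈ F := fun t ht => mem_cj.mpr ⟨t, ht, rfl⟩
  -- the pairing vanishes on `E ∩ F` and on `Y`
  have hEF : ∀ w, w ∈ E → w ∈ F → ∀ e ∈ E, ψ w e = 0 := by
    intro w hw hw' e he
    rw [ψ0 w hw' (self_nz hw) e he]
    rw [commutatorElement_eq_one_iff_mul_comm.mpr (P.eaE.1 w hw e he)]
    exact one_mem _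
  have hYl : ∀ l ∈ F, l ∈ normalizer (E : Set G) → l ∈ Y → ∀ e ∈ E, ψ l e = 0 := by
    intro l hl hN hY e he
    rw [ψ0 l hl hN e he]
    exact L.hL l hl hN hY e he
  -- multiplicativity in `s`
  have hmul : ∀ x' ∈ F, ∀ x ∈ F, ∀ r ∈ E, ∀ s ∈ E, ∀ e ∈ E,
      ψ ⁅x', ⁅x, r * s⁆⁆ e = ψ ⁅x', ⁅x, r⁆⁆ e + ψ ⁅x', ⁅x, s⁆⁆ e := by
    intro x' hx' x hx r hr s hs e he
    set z := ⁅x', ⁅x, s⁆⁆ with hz
    set p := ⁅x, r⁆ with hp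
    set ε := ⁅r, ⁅x, s⁆⁆ with hε
    have zF : z ∈ F := P.zF hx' hx hs
    have zN : z ∈ normalizer (E : Set G) := P.zN hx' hx hs
    have pE : p ∈ normalizer (E : Set G) := P.commE hx hr
    have pF : p ∈ normalizer (F : Set G) := P.commF hx hr
    have qE : ⁅x, s⁆ ∈ normalizer (E : Set G) := P.commE hx hs
    have qF : ⁅x, s⁆ ∈ normalizer (F : Set G) := P.commF hx hs
    have εE : ε ∈ E := comm_nz qE hr
    have εF : ε ∈ normalizer (F : Set G) := by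
      have e1 : ε = (r * x * r⁻¹) * ((r * s) * x⁻¹ * (r * s)⁻¹) * ⁅x, s⁆⁻¹ := by
        rw [hε]; simp only [commutatorElement_def]; group
      rw [e1]
      exact mul_mem (mul_mem (P.hB r hr x hx) (P.hB _ (mul_mem hr hs) _ (inv_mem hx)))
        (inv_mem qF)
    have qD : ⁅x, s⁆ ∈ D := L.x_commD hx hs
    have pD : p ∈ D := L.x_commD hx hr
    have εV : ε ∈ V := inv_comm (L.hV _ qD r (L.EΩ hr))
    have zV : z ∈ V := inv_comm (L.hV _ qD x' (L.FΩ hx'))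
    -- first correction
    have a1F : ⁅x', ε⁆ ∈ F := comm_nz εF hx'
    have a1N : ⁅x', ε⁆ ∈ normalizer (E : Set G) := P.commE hx' εE
    have a1Y : ⁅x', ε⁆ ∈ Y := by
      obtain ⟨v, hv, rfl⟩ := mem_cj.mp hx'
      rw [L.x_comm hv εE]
      exact L.hY1 _ (L.hR v hv) ε εV
    have b1F : p * ⁅x', ε⁆ * p⁻¹ ∈ F := nz pF a1F
    have b1N : p * ⁅x', ε⁆ * p⁻¹ ∈ normalizer (E : Set G) :=
      mul_mem (mul_mem pE a1N) (inv_mem pE)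
    have b1Y : p * ⁅x', ε⁆ * p⁻¹ ∈ Y := L.Yn.conj_mem _ a1Y p
    -- second correction
    have a2E : ⁅ε, z⁆ ∈ E := comm_nz zN εE
    have a2F : ⁅ε, z⁆ ∈ F := nz_comm εF zF
    have b2E : p * ⁅ε, z⁆ * p⁻¹ ∈ E := nz pE a2E
    have b2F : p * ⁅ε, z⁆ * p⁻¹ ∈ F := nz pF a2F
    -- third correction
    have b3F : ⁅p, z⁆ ∈ F := nz_comm pF zF
    have b3N : ⁅p, z⁆ ∈ normalizer (E : Set G) := by
      rw [commutatorElement_def]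
      exact mul_mem (mul_mem (mul_mem pE zN) (inv_mem pE)) (inv_mem zN)
    have b3Y : ⁅p, z⁆ ∈ Y := L.hY1 _ (L.DR pD) z zV
    have z1F : ⁅x', p⁆ ∈ F := P.zF hx' hx hr
    have z1N : ⁅x', p⁆ ∈ normalizer (E : Set G) := P.zN hx' hx hr
    rw [mulRel x' x r s, ← hz, ← hp, ← hε]
    rw [ψl _ (mul_mem z1F b1F) (mul_mem z1N b1N) _
        (mul_mem (mul_mem b2F b3F) zF) (mul_mem (mul_mem (self_nz b2E) b3N) zN) e he,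
      ψl _ z1F z1N _ b1F b1N e he,
      ψl _ (mul_mem b2F b3F) (mul_mem (self_nz b2E) b3N) _ zF zN e he,
      ψl _ b2F (self_nz b2E) _ b3F b3N e he,
      hYl _ b1F b1N b1Y e he, hEF _ b2E b2F e he, hYl _ b3F b3N b3Y e he]
    abel
  -- vanishing on the diagonal
  have hdiag : ∀ x' ∈ F, ∀ x ∈ F, ∀ s ∈ E, ψ ⁅x', ⁅x, s⁆⁆ s = 0 := by
    intro x' hx' x hx s hs
    rw [ψ0 _ (P.zF hx' hx hs) (P.zN hx' hx hs) s hs]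
    obtain ⟨h1, h2⟩ := P.zEF hx' hx hs
    exact P.ef_cE h1 h2
  -- antisymmetry
  have AS : ∀ x' ∈ F, ∀ x ∈ F, ∀ r ∈ E, ∀ s ∈ E,
      ψ ⁅x', ⁅x, s⁆⁆ r = - ψ ⁅x', ⁅x, r⁆⁆ s := by
    intro x' hx' x hx r hr s hs
    have h1 := hdiag x' hx' x hx (r * s) (mul_mem hr hs)
    rw [hmul x' hx' x hx r hr s hs _ (mul_mem hr hs),
      ψr _ (P.zF hx' hx hr) (P.zN hx' hx hr) r hr s hs,
      ψr _ (P.zF hx' hx hs) (P.zN hx' hx hs) r hr s hs,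
      hdiag x' hx' x hx r hr, hdiag x' hx' x hx s hs, zero_add, add_zero] at h1
    rw [eq_neg_iff_add_eq_zero, ← h1, add_comm]
  -- symmetry
  have S2 : ∀ x' ∈ F, ∀ s ∈ E, ∀ t ∈ E, ∀ e ∈ E,
      ψ ⁅x', ⁅y * t * y⁻¹, s⁆⁆ e = ψ ⁅x', ⁅y * s * y⁻¹, t⁆⁆ e := by
    intro x' hx' s hs t ht e he
    set z := ⁅x', ⁅y * t * y⁻¹, s⁆⁆ with hz
    set z' := ⁅x', ⁅y * s * y⁻¹, t⁆⁆ with hz'
    have zF : z ∈ F := P.zF hx' (hxF t ht) hs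
    have zN : z ∈ normalizer (E : Set G) := P.zN hx' (hxF t ht) hs
    have zF' : z' ∈ F := P.zF hx' (hxF s hs) ht
    have zN' : z' ∈ normalizer (E : Set G) := P.zN hx' (hxF s hs) ht
    set d := ⁅y * t * y⁻¹, s⁆ * ⁅y * s * y⁻¹, t⁆⁻¹ with hd
    have hdR : d ∈ ⁅R, R⁆ := by
      set a := ⁅y, t⁆ with ha
      set b := ⁅y, s⁆ with hb
      set q := ⁅b, t⁆ with hq
      have haR : a ∈ R := L.hR t ht
      have hbR : b ∈ R := L.hR s hs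
      have hqR : q ∈ R := L.DR (L.hD _ hbR t (L.EΩ ht))
      have hst : t * s = s * t := P.eaE.1 t ht s hs
      have hxx : (y * t * y⁻¹) * (y * s * y⁻¹) = (y * s * y⁻¹) * (y * t * y⁻¹) :=
        P.eaF.1 _ (hxF t ht) _ (hxF s hs)
      have h1 : y * t * y⁻¹ = a * t := by rw [ha, commutatorElement_def]; group
      have h2 : y * s * y⁻¹ = b * s := by rw [hb, commutatorElement_def]; group
      have h3 : a * ⁅t, b⁆ * b * (t * s) = b * ⁅s, a⁆ * a * (t * s) := by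
        have e1 : a * ⁅t, b⁆ * b * (t * s) = (a * t) * (b * s) := by
          simp only [commutatorElement_def]; group
        have e2 : b * ⁅s, a⁆ * a * (s * t) = (b * s) * (a * t) := by
          simp only [commutatorElement_def]; group
        rw [e1]
        conv_rhs => rw [hst]
        rw [e2, ← h1, ← h2, hxx]
      have h4 : a * ⁅t, b⁆ * b = b * ⁅s, a⁆ * a := mul_right_cancel h3
      have h5 : ⁅s, a⁆ = b⁻¹ * (a * ⁅t, b⁆ * b) * a⁻¹ := by rw [h4]; group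
      have h6 : ⁅a, s⁆ = a * b⁻¹ * q * a⁻¹ * b := by
        rw [← commutatorElement_inv, h5, hq, ← commutatorElement_inv t b]; group
      have h7 : d = (a * b⁻¹) * ⁅q, a⁻¹ * b⁆ * (a * b⁻¹)⁻¹ * ⁅a, b⁻¹⁆ := by
        rw [hd, L.x_comm ht hs, L.x_comm hs ht, ← ha, ← hb, h6, ← hq]
        simp only [commutatorElement_def]; group
      rw [h7]
      have := L.Rn
      have hRR : (⁅R, R⁆ : Subgroup G).Normal := commutator_normal R R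
      refine mul_mem (hRR.conj_mem _ (commutator_mem_commutator hqR
        (mul_mem (inv_mem haR) hbR)) _) (commutator_mem_commutator haR (inv_mem hbR))
    have hzz : z = (⁅x', d⁆ * ⁅d, z'⁆) * z' := by
      have e1 : ⁅y * t * y⁻¹, s⁆ = d * ⁅y * s * y⁻¹, t⁆ := by rw [hd]; group
      have e2 : ∀ q : G, ⁅x', d * q⁆ = (⁅x', d⁆ * ⁅d, ⁅x', q⁆⁆) * ⁅x', q⁆ := by
        intro q; simp only [commutatorElement_def]; group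
      rw [hz, e1, e2]
    have hD1 : ⁅x', d⁆ * ⁅d, z'⁆ ∈ Y :=
      mul_mem (inv_comm (L.hY2 d hdR x' (L.FΩ hx'))) (L.hY2 d hdR z' (L.FΩ zF'))
    have hD2 : ⁅x', d⁆ * ⁅d, z'⁆ = z * z'⁻¹ := by rw [hzz]; group
    have hD3 : ⁅x', d⁆ * ⁅d, z'⁆ ∈ F := by
      rw [hD2]; exact mul_mem zF (inv_mem zF')
    have hD4 : ⁅x', d⁆ * ⁅d, z'⁆ ∈ normalizer (E : Set G) := by
      rw [hD2]; exact mul_mem zN (inv_mem zN')
    rw [hzz, ψl _ hD3 hD4 _ zF' zN' e he, hYl _ hD3 hD4 hD1 e he, zero_add]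
  -- the chain
  have hx'F := hxF u hu
  set x' := y * u * y⁻¹ with hx'
  have c1 : ψ ⁅x', ⁅y * t * y⁻¹, s⁆⁆ r = - ψ ⁅x', ⁅y * t * y⁻¹, s⁆⁆ r := by
    calc ψ ⁅x', ⁅y * t * y⁻¹, s⁆⁆ r = ψ ⁅x', ⁅y * s * y⁻¹, t⁆⁆ r := S2 x' hx'F s hs t ht r hr
      _ = - ψ ⁅x', ⁅y * s * y⁻¹, r⁆⁆ t := AS x' hx'F _ (hxF s hs) r hr t ht
      _ = - ψ ⁅x', ⁅y * r * y⁻¹, s⁆⁆ t := by rw [S2 x' hx'F s hs r hr t ht]
      _ = ψ ⁅x', ⁅y * r * y⁻¹, t⁆⁆ s := by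
        rw [AS x' hx'F _ (hxF r hr) t ht s hs, neg_neg]
      _ = ψ ⁅x', ⁅y * t * y⁻¹, r⁆⁆ s := S2 x' hx'F t ht r hr s hs
      _ = - ψ ⁅x', ⁅y * t * y⁻¹, s⁆⁆ r := AS x' hx'F _ (hxF t ht) s hs r hr
  have c2 : ψ ⁅x', ⁅y * t * y⁻¹, s⁆⁆ r = 0 := by
    have h1 := ψ3 (ψ ⁅x', ⁅y * t * y⁻¹, s⁆⁆ r)
    have h2 : ψ ⁅x', ⁅y * t * y⁻¹, s⁆⁆ r + ψ ⁅x', ⁅y * t * y⁻¹, s⁆⁆ r = 0 := by
      nth_rewrite 2 [c1]
      exact add_neg_cancel _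
    rwa [h2, zero_add] at h1
  exact (ψ0 _ (P.zF hx'F (hxF t ht) hs) (P.zN hx'F (hxF t ht) hs) r hr).mp c2

end LocHyp

end MP67
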