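import Mathlib
import Pool.Agent.Lib.MP_67dbdc_al.Core

/-!
The main argument: if the elements of order 3 of `N` are central in `N` and `G / N` has class at
most 2, then a suitable elementary abelian subgroup of maximal order is normal in its normal
closure.
-/

namespace MP67

open Subgroup
open scoped commutatorElement

variable {G : Type*} [Group G]

/-- The elements of `N` of order dividing 3, when these are central in `N`. -/
def omegaN (N : Subgroup G) (hN : ∀ x ∈ N, x ^ 3 = 1 → ∀ y ∈ N, x * y = y * x) :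
    Subgroup G where
  carrier := {x | x ∈ N ∧ x ^ 3 = 1}
  mul_mem' := by
    rintro x y ⟨hx, hx3⟩ ⟨hy, hy3⟩
    refine ⟨mul_mem hx hy, ?_⟩
    have : Commute x y := hN x hx hx3 y hy
    rw [this.mul_pow, hx3, hy3, one_mul]
  one_mem' := ⟨one_mem _, one_pow _⟩
  inv_mem' := by
    rintro x ⟨hx, hx3⟩
    exact ⟨inv_mem hx, by rw [inv_pow, hx3, inv_one]⟩

lemma comm_mul_left (a b c : G) : ⁅a * b, c⁆ = ⁅a, ⁅b, c⁆⁆ * ⁅b, c⁆ * ⁅a, c⁆ := by
  simp only [commutatorElement_def]; group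

lemma comm_symm (a b c : G) (h : a * b = b * a) :
    ⁅a, ⁅b, c⁆⁆ * ⁅b, c⁆ * ⁅a, c⁆ = ⁅b, ⁅a, c⁆⁆ * ⁅a, c⁆ * ⁅b, c⁆ := by
  rw [← comm_mul_left, ← comm_mul_left, h]

lemma comm_mem_left {N : Subgroup G} (hN : N.Normal) {y : G} (hy : y ∈ N) (e : G) :
    ⁅e, y⁆ ∈ N := by
  rw [commutatorElement_def]
  exact mul_mem (hN.conj_mem y hy e) (inv_mem hy)

/-- First form of the key lemma. -/
lemma keyQ [Finite G] {E V : Subgroup G} (hE : EA E) (hV : EA V)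
    (hmax : ∀ F : Subgroup G, EA F → Nat.card F ≤ Nat.card E)
    (hmaxV : ∀ F : Subgroup G, EA F → Nat.card F = Nat.card E →
      Nat.card (F ⊓ V : Subgroup G) ≤ Nat.card (E ⊓ V : Subgroup G))
    (c : G) (hc : ∀ s ∈ E, ⁅s, c⁆ ∈ V) (hc2 : ∀ s ∈ E, ∀ t ∈ E, ⁅s, ⁅t, c⁆⁆ ∈ E) :
    ∀ s ∈ E, ⁅s, c⁆ ∈ E := by
  refine P1 hE hV hmax hmaxV (fun s => ⁅s, c⁆) hc ?_ ?_
  · intro s hs t ht
    refine ⟨⁅s, ⁅t, c⁆⁆, hc2 s hs t ht, ?_⟩
    have h1 : ⁅t, c⁆ * ⁅s, c⁆ = ⁅s, c⁆ * ⁅t, c⁆ := hV.1 _ (hc t ht) _ (hc s hs)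
    have hst : ⁅s, ⁅t, c⁆⁆ ∈ V := by
      have h3 : ⁅s, ⁅t, c⁆⁆ = ⁅s * t, c⁆ * ⁅s, c⁆⁻¹ * ⁅t, c⁆⁻¹ := by
        rw [comm_mul_left]; group
      rw [h3]
      exact V.mul_mem (V.mul_mem (hc _ (mul_mem hs ht)) (V.inv_mem (hc s hs)))
        (V.inv_mem (hc t ht))
    show ⁅s * t, c⁆ = ⁅s, c⁆ * ⁅t, c⁆ * ⁅s, ⁅t, c⁆⁆
    rw [comm_mul_left, mul_assoc, h1]
    exact hV.1 _ hst _ (mul_mem (hc s hs) (hc t ht))
  · intro s hs t ht htE
    have h1 := comm_symm s t c (hE.1 s hs t ht)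
    have h2 : ⁅t, c⁆ * ⁅s, c⁆ = ⁅s, c⁆ * ⁅t, c⁆ := hV.1 _ (hc t ht) _ (hc s hs)
    have h3 : ⁅s, ⁅t, c⁆⁆ = 1 := by
      rw [commutatorElement_eq_one_iff_mul_comm]
      exact hE.1 s hs _ htE
    rw [mul_assoc, mul_assoc, h2] at h1
    have h4 := mul_right_cancel h1
    rw [h3] at h4
    exact (commutatorElement_eq_one_iff_mul_comm.mp h4.symm)

/-- `V` normalises `E`. -/
lemma step1 [Finite G] [Group.IsNilpotent G] {E V : Subgroup G} (hE : EA E) (hV : EA V)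
    (hVn : V.Normal)
    (hmax : ∀ F : Subgroup G, EA F → Nat.card F ≤ Nat.card E)
    (hmaxV : ∀ F : Subgroup G, EA F → Nat.card F = Nat.card E →
      Nat.card (F ⊓ V : Subgroup G) ≤ Nat.card (E ⊓ V : Subgroup G)) :
    ∀ v ∈ V, ∀ e ∈ E, ⁅e, v⁆ ∈ E := by
  have := descent (G := G) (V : Set G) {v | ∀ e ∈ E, ⁅e, v⁆ ∈ E} (E : Set G)
    (fun y hy e _ => comm_mem_left hVn hy e) (fun e _ => by
      rw [commutatorElement_one_right]; exact one_mem _) ?_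
  · exact this
  · intro y hy h
    exact keyQ hE hV hmax hmaxV y (fun s _ => comm_mem_left hVn hy s)
      (fun s hs t ht => h t ht s hs)

lemma keyQ' [Finite G] [Group.IsNilpotent G] {E V : Subgroup G} (hE : EA E) (hV : EA V)
    (hVn : V.Normal)
    (hmax : ∀ F : Subgroup G, EA F → Nat.card F ≤ Nat.card E)
    (hmaxV : ∀ F : Subgroup G, EA F → Nat.card F = Nat.card E →
      Nat.card (F ⊓ V : Subgroup G) ≤ Nat.card (E ⊓ V : Subgroup G))
    (c : G) (hc : ∀ s ∈ E, ⁅s, c⁆ ∈ V) : ∀ s ∈ E, ⁅s, c⁆ ∈ E :=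
  keyQ hE hV hmax hmaxV c hc
    (fun s hs _ ht => step1 hE hV hVn hmax hmaxV _ (hc _ ht) s hs)

/-- The step where the prime 3 enters. -/
lemma star [Finite G] [Group.IsNilpotent G] {E V N : Subgroup G} (hE : EA E) (hV : EA V)
    (hVn : V.Normal)
    (hmax : ∀ F : Subgroup G, EA F → Nat.card F ≤ Nat.card E)
    (hmaxV : ∀ F : Subgroup G, EA F → Nat.card F = Nat.card E →
      Nat.card (F ⊓ V : Subgroup G) ≤ Nat.card (E ⊓ V : Subgroup G))
    (hcent : ∀ v ∈ V, ∀ y ∈ N, v * y = y * v) (hNV : ∀ y ∈ N, y ^ 3 = 1 → y ∈ V)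
    (c : G) (hc : ∀ s ∈ E, ⁅s, c⁆ ∈ N ∧ ∀ e ∈ E, ⁅e, ⁅s, c⁆⁆ ∈ V) :
    ∀ s ∈ E, ⁅s, c⁆ ∈ V := by
  intro s hs
  obtain ⟨hxN, hxV⟩ := hc s hs
  have hq := keyQ' hE hV hVn hmax hmaxV ⁅s, c⁆ hxV
  refine hNV _ hxN ?_
  set x := ⁅s, c⁆ with hx
  set d := ⁅s, x⁆ with hd
  have hdE : d ∈ E := hq s hs
  have hdV : d ∈ V := hxV s hs
  have hds : d * s = s * d := hE.1 d hdE s hs
  have hdx : d * x = x * d := hcent d hdV x hxN
  have hd3 : d ^ 3 = 1 := hV.2 d hdV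
  have hsx : s * x = d * x * s := by rw [hd, commutatorElement_def]; group
  have h2 : ⁅s * s, c⁆ = d * x * x := by rw [comm_mul_left]
  have h3 : ⁅s * (s * s), c⁆ = s * (d * x * x) * s⁻¹ * x := by
    have : ⁅s * (s * s), c⁆ = s * ⁅s * s, c⁆ * s⁻¹ * ⁅s, c⁆ := by
      simp only [commutatorElement_def]; group
    rw [this, h2]
  have h4 : s * (s * s) = 1 := by
    have := hE.2 s hs
    rwa [pow_three] at this
  rw [h4, commutatorElement_one_left] at h3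
  have h5 : s * (d * x * x) * s⁻¹ = x * x := by
    calc s * (d * x * x) * s⁻¹ = (s * d) * x * x * s⁻¹ := by group
      _ = (d * s) * x * x * s⁻¹ := by rw [hds]
      _ = d * (s * x) * x * s⁻¹ := by group
      _ = d * (d * x * s) * x * s⁻¹ := by rw [hsx]
      _ = d * d * x * (s * x) * s⁻¹ := by group
      _ = d * d * x * (d * x * s) * s⁻¹ := by rw [hsx]
      _ = d * d * (x * d) * x := by group
      _ = d * d * (d * x) * x := by rw [hdx]
      _ = d ^ 3 * (x * x) := by rw [pow_three]; group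
      _ = x * x := by rw [hd3, one_mul]
  rw [h5] at h3
  rw [pow_three, ← mul_assoc]
  exact h3.symm

/-- Every element that maps `E` into `N` by commutation normalises `E`. -/
lemma step4 [Finite G] [Group.IsNilpotent G] {E V N : Subgroup G} (hE : EA E) (hV : EA V)
    (hVn : V.Normal) (hNn : N.Normal)
    (hmax : ∀ F : Subgroup G, EA F → Nat.card F ≤ Nat.card E)
    (hmaxV : ∀ F : Subgroup G, EA F → Nat.card F = Nat.card E →
      Nat.card (F ⊓ V : Subgroup G) ≤ Nat.card (E ⊓ V : Subgroup G))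
    (hcent : ∀ v ∈ V, ∀ y ∈ N, v * y = y * v) (hNV : ∀ y ∈ N, y ^ 3 = 1 → y ∈ V)
    (c : G) (hc : ∀ s ∈ E, ⁅s, c⁆ ∈ N) : ∀ s ∈ E, ⁅s, c⁆ ∈ E := by
  have h3 : ∀ y ∈ N, ∀ e ∈ E, ⁅e, y⁆ ∈ V := by
    have := descent (G := G) (N : Set G) {y | ∀ e ∈ E, ⁅e, y⁆ ∈ V} (E : Set G)
      (fun y hy e _ => comm_mem_left hNn hy e) (fun e _ => by
        rw [commutatorElement_one_right]; exact one_mem _) ?_
    · exact this
    · intro y hy h
      exact star hE hV hVn hmax hmaxV hcent hNV y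
        (fun s hs => ⟨comm_mem_left hNn hy s, h s hs⟩)
  have h4 := star hE hV hVn hmax hmaxV hcent hNV c (fun s hs => ⟨hc s hs, h3 _ (hc s hs)⟩)
  exact keyQ' hE hV hVn hmax hmaxV c h4

/-- From generators to the normal closure. -/
lemma normalClosure_normalises {E : Subgroup G}
    (h : ∀ g : G, ∀ f ∈ E, ∀ b ∈ E, (g * f * g⁻¹) * b * (g * f * g⁻¹)⁻¹ ∈ E) :
    ∀ w ∈ normalClosure (E : Set G), ∀ b ∈ E, w * b * w⁻¹ ∈ E := by
  intro w hw
  have key : (∀ b ∈ E, w * b * w⁻¹ ∈ E) ∧ ∀ b ∈ E, w⁻¹ * b * w ∈ E := by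
    rw [normalClosure] at hw
    induction hw using Subgroup.closure_induction with
    | mem x hx =>
      rw [Group.mem_conjugatesOfSet_iff] at hx
      obtain ⟨f, hf, hfx⟩ := hx
      rw [isConj_iff] at hfx
      obtain ⟨g, rfl⟩ := hfx
      refine ⟨fun b hb => h g f hf b hb, fun b hb => ?_⟩
      have := h g f⁻¹ (inv_mem hf) b hb
      have e : g * f⁻¹ * g⁻¹ = (g * f * g⁻¹)⁻¹ := by group
      rwa [e, inv_inv] at this
    | one => simp
    | mul x y _ _ hx hy =>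
      refine ⟨fun b hb => ?_, fun b hb => ?_⟩
      · have := hx.1 _ (hy.1 b hb)
        have e : x * y * b * (x * y)⁻¹ = x * (y * b * y⁻¹) * x⁻¹ := by group
        rw [e]; exact this
      · have := hy.2 _ (hx.2 b hb)
        have e : (x * y)⁻¹ * b * (x * y) = y⁻¹ * (x⁻¹ * b * x) * y := by group
        rw [e]; exact this
    | inv x _ hx =>
      refine ⟨fun b hb => ?_, fun b hb => ?_⟩
      · rw [inv_inv]; exact hx.2 b hb
      · rw [inv_inv]; exact hx.1 b hb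
  exact key.1

/-- Existence of a normal one of maximal order. -/
lemma exists_max [Finite G] [Group.IsNilpotent G] (N : Subgroup G) (hNn : N.Normal)
    (hN : ∀ x ∈ N, x ^ 3 = 1 → ∀ y ∈ N, x * y = y * x)
    (hγ : ∀ a b c : G, ⁅a, ⁅b, c⁆⁆ ∈ N) :
    ∃ E : Subgroup G, EA E ∧ (∀ F : Subgroup G, EA F → Nat.card F ≤ Nat.card E) ∧
      ∀ w ∈ normalClosure (E : Set G), ∀ b ∈ E, w * b * w⁻¹ ∈ E := by
  classical
  set V := omegaN N hN with hVdef
  have hV : EA V := ⟨fun x hx y hy => hN x hx.1 hx.2 y hy.1, fun x hx => hx.2⟩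
  have hVn : V.Normal := by
    refine ⟨fun x hx g => ⟨hNn.conj_mem x hx.1 g, ?_⟩⟩
    rw [conj_pow, hx.2, mul_one, mul_inv_cancel]
  have hcent : ∀ v ∈ V, ∀ y ∈ N, v * y = y * v := fun v hv y hy => hN v hv.1 hv.2 y hy
  have hNV : ∀ y ∈ N, y ^ 3 = 1 → y ∈ V := fun y hy h => ⟨hy, h⟩
  obtain ⟨E0, hE0, hE0max⟩ := Set.exists_max_image {F : Subgroup G | EA F}
    (fun F => Nat.card F) (Set.toFinite _)
    ⟨⊥, by constructor <;> simp⟩
  obtain ⟨E, ⟨hE, hEc⟩, hEmax⟩ := Set.exists_max_image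
    {F : Subgroup G | EA F ∧ Nat.card F = Nat.card E0}
    (fun F => Nat.card (F ⊓ V : Subgroup G)) (Set.toFinite _) ⟨E0, hE0, rfl⟩
  have hmax : ∀ F : Subgroup G, EA F → Nat.card F ≤ Nat.card E := by
    intro F hF; rw [hEc]; exact hE0max F hF
  have hmaxV : ∀ F : Subgroup G, EA F → Nat.card F = Nat.card E →
      Nat.card (F ⊓ V : Subgroup G) ≤ Nat.card (E ⊓ V : Subgroup G) :=
    fun F hF h => hEmax F ⟨hF, h.trans hEc⟩
  refine ⟨E, hE, hmax, normalClosure_normalises ?_⟩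
  intro g f hf b hb
  have h1 := step4 hE hV hVn hNn hmax hmaxV hcent hNV ⁅g, f⁆
    (fun s _ => hγ s g f)
  have h2 := h1 (f * b * f⁻¹)⁻¹ (inv_mem (mul_mem (mul_mem hf hb) (inv_mem hf)))
  have h3 : (g * f * g⁻¹) * b * (g * f * g⁻¹)⁻¹ =
      (f * b * f⁻¹) * ⁅(f * b * f⁻¹)⁻¹, ⁅g, f⁆⁆ := by
    simp only [commutatorElement_def]; group
  rw [h3]
  exact mul_mem (mul_mem (mul_mem hf hb) (inv_mem hf)) h2

/-- Passing to smaller orders. -/
lemma smaller [Finite G] (h3 : IsPGroup 3 G) [Group.IsNilpotent G] {E W : Subgroup G} (hE : EA E)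
    (hEW : ∀ w ∈ W, ∀ b ∈ E, w * b * w⁻¹ ∈ E) :
    ∀ n : ℕ, 3 ^ n ≤ Nat.card E → ∃ B : Subgroup G, B ≤ E ∧ Nat.card B = 3 ^ n ∧
      ∀ w ∈ W, ∀ b ∈ B, w * b * w⁻¹ ∈ B := by
  intro n
  induction n with
  | zero =>
    intro _
    refine ⟨⊥, bot_le, by simp, fun w _ b hb => ?_⟩
    rw [mem_bot] at hb ⊢
    rw [hb]; group
  | succ n ih =>
    intro hn
    obtain ⟨B, hBE, hBc, hBW⟩ := ih (le_trans (Nat.pow_le_pow_right (by norm_num) (by omega)) hn)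
    -- an element of E outside B, central modulo B
    have hz : ∃ z ∈ E, z ∉ B ∧ ∀ w ∈ W, ⁅w, z⁆ ∈ B := by
      by_contra hcon
      push Not at hcon
      have := descent (G := G) (E : Set G) (B : Set G) (W : Set G)
        (fun y hy e he => by
          rw [commutatorElement_def]; exact mul_mem (hEW e he y hy) (E.inv_mem hy))
        (one_mem B) (fun y hy h => by
          by_contra hyB
          obtain ⟨w, hw, hw'⟩ := hcon y hy hyB
          exact hw' (h w hw))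
      have h4 : Nat.card E ≤ Nat.card B := Subgroup.card_le_of_le (fun x hx => this x hx)
      rw [hBc] at h4
      have h5 : 3 ^ n < 3 ^ (n + 1) := Nat.pow_lt_pow_right (by norm_num) (by omega)
      omega
    obtain ⟨z, hzE, hzB, hzW⟩ := hz
    have hcomm : ∀ a ∈ B, ∀ b ∈ zpowers z, a * b = b * a := by
      intro a ha b hb
      exact hE.1 a (hBE ha) b ((zpowers_le.mpr hzE) hb)
    set P := prodSub B (zpowers z) hcomm with hP
    have hBP : B ≤ P := left_le_prodSub hcomm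
    have hzP : z ∈ P := right_le_prodSub hcomm (mem_zpowers z)
    have hPE : P ≤ E := by
      rintro _ ⟨a, ha, b, hb, rfl⟩
      exact mul_mem (hBE ha) ((zpowers_le.mpr hzE) hb)
    have hlt : Nat.card B < Nat.card P := by
      refine lt_of_le_of_ne (Subgroup.card_le_of_le hBP) (fun h => ?_)
      have := Subgroup.eq_of_le_of_card_ge hBP h.ge
      exact hzB (this ▸ hzP)
    have hle : Nat.card P ≤ 3 ^ n * 3 := by
      have hs : Function.Surjective (fun p : B × zpowers z =>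
          (⟨(p.1 : G) * p.2, ⟨p.1, p.1.2, p.2, p.2.2, rfl⟩⟩ : P)) := by
        rintro ⟨_, a, ha, b, hb, rfl⟩
        exact ⟨(⟨a, ha⟩, ⟨b, hb⟩), rfl⟩
      have h1 := Nat.card_le_card_of_surjective _ hs
      rw [Nat.card_prod, hBc, Nat.card_zpowers] at h1
      refine h1.trans (Nat.mul_le_mul_left _ ?_)
      exact orderOf_le_of_pow_eq_one (by norm_num) (hE.2 z hzE)
    obtain ⟨m, hm⟩ := IsPGroup.iff_card.mp (h3.to_subgroup P)
    have hm1 : n < m := by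
      rw [hm, hBc] at hlt
      exact (Nat.pow_lt_pow_iff_right (by norm_num)).mp hlt
    have hm2 : m ≤ n + 1 := by
      rw [hm, ← pow_succ] at hle
      exact (Nat.pow_le_pow_iff_right (by norm_num)).mp hle
    have hmn : m = n + 1 := by omega
    refine ⟨P, hPE, by rw [hm, hmn], ?_⟩
    intro w hw b hb
    obtain ⟨a, ha, y, hy, rfl⟩ := hb
    obtain ⟨k, rfl⟩ := mem_zpowers_iff.mp hy
    have e : w * (a * z ^ k) * w⁻¹ = (w * a * w⁻¹) * (w * z * w⁻¹) ^ k := by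
      rw [conj_zpow]; group
    rw [e]
    refine mul_mem (hBP (hBW w hw a ha)) (zpow_mem ?_ k)
    have e2 : w * z * w⁻¹ = ⁅w, z⁆ * z := by rw [commutatorElement_def]; group
    rw [e2]
    exact mul_mem (hBP (hzW w hw)) hzP

/-- The main theorem, for a normal subgroup `N`. -/
theorem main [Finite G] (h3 : IsPGroup 3 G) (N : Subgroup G) (hNn : N.Normal)
    (hN : ∀ x ∈ N, x ^ 3 = 1 → ∀ y ∈ N, x * y = y * x)
    (hγ : ∀ a b c : G, ⁅a, ⁅b, c⁆⁆ ∈ N) (n : ℕ)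
    (hn : ∃ A : Subgroup G, (∀ x ∈ A, ∀ y ∈ A, x * y = y * x) ∧ (∀ x ∈ A, x ^ 3 = 1) ∧
      Nat.card A = 3 ^ n) :
    ∃ B : Subgroup G, (∀ x ∈ B, ∀ y ∈ B, x * y = y * x) ∧ (∀ x ∈ B, x ^ 3 = 1) ∧
      Nat.card B = 3 ^ n ∧ ∀ g ∈ normalClosure (B : Set G), ∀ b ∈ B, g * b * g⁻¹ ∈ B := by
  have : Group.IsNilpotent G := h3.isNilpotent
  obtain ⟨E, hE, hmax, hEn⟩ := exists_max N hNn hN hγ
  obtain ⟨A, hA1, hA2, hAc⟩ := hn
  have hcard : 3 ^ n ≤ Nat.card E := by rw [← hAc]; exact hmax A ⟨hA1, hA2⟩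
  obtain ⟨B, hBE, hBc, hBW⟩ := smaller h3 hE hEn n hcard
  refine ⟨B, fun x hx y hy => hE.1 x (hBE hx) y (hBE hy), fun x hx => hE.2 x (hBE hx), hBc, ?_⟩
  intro g hg b hb
  exact hBW g (normalClosure_mono (fun x hx => hBE hx) hg) b hb

end MP67
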