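import Mathlib
import Pool.Agent.Lib.MP_67dbdc_al.Main
import Pool.Agent.Lib.MP_67dbdc_al.Chain

/-!
Assembly: every finite 3-group satisfying a commutator condition has, for each order of an
elementary abelian subgroup, an elementary abelian subgroup of that order which is normal in its
normal closure.
-/

namespace MP67

open Subgroup
open scoped commutatorElement

universe u

variable {G : Type u} [Group G]

lemma core_of_comm {E : Subgroup G} {x u : G} (hx : x ^ 3 = 1) (hu : u ∈ E)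
    (h : ⁅x, u⁆ ∈ core E x) : u ∈ core E x := by
  have hx2 : x * x = x⁻¹ := by
    rw [pow_three, ← mul_assoc] at hx
    exact eq_inv_of_mul_eq_one_left hx
  have hx2' : x⁻¹ * x⁻¹ = x := by
    rw [← mul_inv_rev, hx2, inv_inv]
  have e1 : x * u * x⁻¹ = ⁅x, u⁆ * u := by rw [commutatorElement_def]; group
  have h2 : x * u * x⁻¹ ∈ E := by
    rw [e1]; exact mul_mem h.1 hu
  have h3 : x⁻¹ * u * x ∈ E := by
    have e2 : x⁻¹ * u * x = (x * ⁅x, u⁆ * x⁻¹) * (x * u * x⁻¹) := by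
      have e : x * (x * u * x⁻¹) * x⁻¹ = (x * x) * u * (x⁻¹ * x⁻¹) := by group
      rw [hx2, hx2'] at e
      rw [← e]
      nth_rewrite 1 [e1]
      group
    rw [e2]
    exact mul_mem h.2.1 h2
  exact ⟨hu, h2, h3⟩

/-- The level of a subgroup with respect to the lower central series. -/
noncomputable def level (K : ℕ) (E : Subgroup G) : ℕ :=
  ∑ i ∈ Finset.range (K + 1), Nat.card (E ⊓ (⊤ : Subgroup G).lowerCentralSeries i : Subgroup G)

/-- Maximal order and maximal level. -/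
structure MaxHyp (K : ℕ) (E : Subgroup G) : Prop where
  ea : EA E
  hmax : ∀ F : Subgroup G, EA F → Nat.card F ≤ Nat.card E
  hlev : ∀ F : Subgroup G, EA F → Nat.card F = Nat.card E → level K F ≤ level K E

lemma mem_nz_of [Finite G] {E : Subgroup G} {x : G} (h : ∀ u ∈ E, x * u * x⁻¹ ∈ E) :
    x ∈ normalizer (E : Set G) :=
  mem_normalizer_fintype (S := (E : Set G)) h

/-- The consequence of maximality. -/
lemma norm_of_limHyp [Finite G] {K : ℕ} (hK : (⊤ : Subgroup G).lowerCentralSeries K = ⊥)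
    {E : Subgroup G} (hE : MaxHyp K E) {x : G} (h : LimHyp E x) :
    x ∈ normalizer (E : Set G) := by
  classical
  by_cases hc : E ≤ core E x
  · exact mem_nz_of (fun u hu => (hc hu).2.1)
  exfalso
  obtain ⟨S, hS, hcard, hN, hcS, h2, h1⟩ := limit h
  have hcS' : Nat.card S = Nat.card E := le_antisymm (hE.hmax S hS) hcard
  have hlev := hE.hlev S hS hcS'
  have hex : ∃ k, E ⊓ (⊤ : Subgroup G).lowerCentralSeries k ≤ core E x := by
    refine ⟨K, ?_⟩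
    rw [hK, inf_bot_eq]; exact bot_le
  set k := Nat.find hex with hk
  have hk1 : E ⊓ (⊤ : Subgroup G).lowerCentralSeries k ≤ core E x := Nat.find_spec hex
  have hkK : k ≤ K := Nat.find_min' hex (by rw [hK, inf_bot_eq]; exact bot_le)
  have hk0 : k ≠ 0 := by
    intro h0
    rw [h0, Subgroup.lowerCentralSeries_zero, inf_top_eq] at hk1
    exact hc hk1
  obtain ⟨j, hj⟩ := Nat.exists_eq_succ_of_ne_zero hk0
  have hj1 : ¬ E ⊓ (⊤ : Subgroup G).lowerCentralSeries j ≤ core E x :=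
    Nat.find_min hex (by omega)
  obtain ⟨t, ht, htc⟩ := SetLike.not_le_iff_exists.mp hj1
  have hcl : ∀ u, u ∈ (⊤ : Subgroup G).lowerCentralSeries j →
      ⁅x, u⁆ ∈ (⊤ : Subgroup G).lowerCentralSeries k := by
    intro u hu
    rw [hj, Nat.succ_eq_add_one, Subgroup.lowerCentralSeries_succ]
    exact inv_comm (commutator_mem_commutator hu (mem_top x))
  have hkj : (⊤ : Subgroup G).lowerCentralSeries k ≤ (⊤ : Subgroup G).lowerCentralSeries j :=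
    Subgroup.lowerCentralSeries_antitone _ (by omega)
  have ht1 := hcl t ht.2
  have ht2 := hcl _ (hkj ht1)
  have hg : ∃ g ∈ S, g ∈ (⊤ : Subgroup G).lowerCentralSeries k ∧ g ∉ core E x := by
    by_cases h3 : ⁅x, ⁅x, t⁆⁆ ∈ core E x
    · exact ⟨_, h1 t ht.1 h3, ht1, fun h4 => htc (core_of_comm h.x3 ht.1 h4)⟩
    · exact ⟨_, h2 t ht.1, ht2, h3⟩
  obtain ⟨g, hgS, hgk, hgc⟩ := hg
  have hle : E ⊓ (⊤ : Subgroup G).lowerCentralSeries k ≤
      S ⊓ (⊤ : Subgroup G).lowerCentralSeries k :=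
    fun u hu => ⟨hcS (hk1 hu), hu.2⟩
  have hlt : Nat.card (E ⊓ (⊤ : Subgroup G).lowerCentralSeries k : Subgroup G) <
      Nat.card (S ⊓ (⊤ : Subgroup G).lowerCentralSeries k : Subgroup G) := by
    refine lt_of_le_of_ne (Subgroup.card_le_of_le hle) (fun heq => ?_)
    have := Subgroup.eq_of_le_of_card_ge hle heq.ge
    have hg' : g ∈ E ⊓ (⊤ : Subgroup G).lowerCentralSeries k := by
      rw [this]; exact ⟨hgS, hgk⟩
    exact hgc (hk1 hg')
  have : level K E < level K S := by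
    refine Finset.sum_lt_sum (fun i _ => hN _ inferInstance) ⟨k, ?_, hlt⟩
    rw [Finset.mem_range]; omega
  omega

/-- The pair attached to `y` when the commutators with `y` are good. -/
lemma pair_of_good [Finite G] {E N : Subgroup G} (hE : EA E) (hN : N.Normal) {y : G}
    (hy : ∀ g, ⁅y, g⁆ ∈ N)
    (hgood : ∀ k ∈ N, ∀ e ∈ E, k * e * k⁻¹ ∈ normalizer (E : Set G)) :
    PairHyp E (cj y E) where
  eaE := hE
  eaF := by
    constructor
    · intro a ha b hb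
      obtain ⟨s, hs, rfl⟩ := mem_cj.mp ha
      obtain ⟨t, ht, rfl⟩ := mem_cj.mp hb
      have := hE.1 s hs t ht
      calc y * s * y⁻¹ * (y * t * y⁻¹) = y * (s * t) * y⁻¹ := by group
        _ = y * (t * s) * y⁻¹ := by rw [this]
        _ = _ := by group
    · intro a ha
      obtain ⟨s, hs, rfl⟩ := mem_cj.mp ha
      rw [conj_pow, hE.2 s hs, mul_one, mul_inv_cancel]
  hA := by
    intro e he x hx
    obtain ⟨t, ht, rfl⟩ := mem_cj.mp hx
    have h1 := hgood _ (hy t) e he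
    have h2 : t * e = e * t := hE.1 t ht e he
    have e1 : (y * t * y⁻¹) * e * (y * t * y⁻¹)⁻¹ = ⁅y, t⁆ * (t * e) * t⁻¹ * ⁅y, t⁆⁻¹ := by
      simp only [commutatorElement_def]; group
    rw [e1, h2]
    have e2 : ⁅y, t⁆ * (e * t) * t⁻¹ * ⁅y, t⁆⁻¹ = ⁅y, t⁆ * e * ⁅y, t⁆⁻¹ := by group
    rw [e2]; exact h1
  hB := by
    intro e he x hx
    obtain ⟨v, hv, rfl⟩ := mem_cj.mp hx
    set n := e⁻¹ * y⁻¹ * e * y with hn
    have hnN : n ∈ N := by
      have h1 := hN.conj_mem _ (hy e⁻¹) y⁻¹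
      have e1 : y⁻¹ * ⁅y, e⁻¹⁆ * (y⁻¹)⁻¹ = n := by
        rw [hn]; simp only [commutatorElement_def]; group
      rwa [e1] at h1
    have h2 := hgood n hnN v hv
    have h3 : e * (n * v * n⁻¹) * e⁻¹ ∈ normalizer (E : Set G) :=
      mul_mem (mul_mem (self_nz he) h2) (inv_mem (self_nz he))
    refine mem_nz_of ?_
    intro w hw
    obtain ⟨u, hu, rfl⟩ := mem_cj.mp hw
    rw [mem_cj]
    refine ⟨_, nz h3 hu, ?_⟩
    rw [hn]; group

/-- The commutator condition gives the local hypothesis on the kernel. -/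
lemma cond_local {E : Subgroup G} {y : G} (P : PairHyp E (cj y E)) {Ω R D : Subgroup G}
    (Dn : D.Normal)
    (EΩ : E ≤ Ω) (hR : ∀ t ∈ E, ⁅y, t⁆ ∈ R) (hD : ∀ c ∈ R, ∀ t ∈ Ω, ⁅c, t⁆ ∈ D)
    {l : G} (hl : l ∈ cj y E) (hlN : l ∈ normalizer (E : Set G))
    (hU : (∀ d ∈ D, l * d = d * l) ∨ ∀ c ∈ R, ∀ c' ∈ R, ⁅⁅l, c⁆, c'⁆ = 1) :
    ∀ e ∈ E, ⁅l, e⁆ ∈ cE E (cj y E) := by
  have xc : ∀ t ∈ E, ∀ s ∈ E, ⁅y * t * y⁻¹, s⁆ = ⁅⁅y, t⁆, s⁆ := by
    intro t ht s hs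
    have h : t * s = s * t := P.eaE.1 t ht s hs
    have e1 : ⁅y * t * y⁻¹, s⁆ = ⁅y, t⁆ * (t * s) * t⁻¹ * ⁅y, t⁆⁻¹ * s⁻¹ := by
      simp only [commutatorElement_def]; group
    rw [e1, h]
    simp only [commutatorElement_def]; group
  intro e he
  set w := ⁅l, e⁆ with hw
  have hwE : w ∈ E := nz_comm hlN he
  refine ⟨hwE, fun x hx => ?_⟩
  obtain ⟨v, hv, hvx⟩ := mem_cj.mp hx
  rcases hU with hU | hU
  · set g := ⁅x, e⁆ with hg
    have hgD : g ∈ D := by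
      rw [hg, ← hvx, xc v hv e he]
      exact hD _ (hR v hv) _ (EΩ he)
    have hgN : g ∈ normalizer (E : Set G) := P.commE hx he
    have hlg : l * g = g * l := hU g hgD
    have hlx : l * x = x * l := P.eaF.1 l hl x hx
    set y1 := g * e * g⁻¹ * e⁻¹ with hy1
    have hy1E : y1 ∈ E := mul_mem (nz hgN he) (inv_mem he)
    have hy1D : y1 ∈ D := by
      have e1 : y1 = g * (e * g⁻¹ * e⁻¹) := by rw [hy1]; group
      rw [e1]; exact mul_mem hgD (Dn.conj_mem _ (inv_mem hgD) e)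
    have hly1 : l * y1 = y1 * l := hU y1 hy1D
    have hlel : l * e * l⁻¹ = w * e := by rw [hw, commutatorElement_def]; group
    -- `x w x⁻¹ = g w g⁻¹`
    have h1 : x * w * x⁻¹ = g * w * g⁻¹ := by
      have h2 : l * g * l⁻¹ = g := by rw [hlg]; group
      have h3 : l * g * l⁻¹ = x * w * x⁻¹ * g * w⁻¹ := by
        calc l * g * l⁻¹ = (l * x) * l⁻¹ * (l * e * l⁻¹) * ((l * x) * l⁻¹)⁻¹ *
              (l * e * l⁻¹)⁻¹ := by rw [hg, commutatorElement_def]; group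
          _ = (x * l) * l⁻¹ * (w * e) * ((x * l) * l⁻¹)⁻¹ * (w * e)⁻¹ := by rw [hlx, hlel]
          _ = x * w * x⁻¹ * g * w⁻¹ := by rw [hg, commutatorElement_def]; group
      rw [h2] at h3
      have h4 : x * w * x⁻¹ = (x * w * x⁻¹ * g * w⁻¹) * w * g⁻¹ := by group
      rw [h4, ← h3]
    have h5 : g * w * g⁻¹ = w := by
      have e1 : g * e * g⁻¹ = y1 * e := by rw [hy1]; group
      have e2 : g * l * g⁻¹ = l := by rw [← hlg]; group
      have e3 : y1 * w = w * y1 := P.eaE.1 y1 hy1E w hwE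
      calc g * w * g⁻¹ = (g * l * g⁻¹) * (g * e * g⁻¹) * (g * l * g⁻¹)⁻¹ *
            (g * e * g⁻¹)⁻¹ := by rw [hw, commutatorElement_def]; group
        _ = (l * y1) * e * l⁻¹ * (y1 * e)⁻¹ := by rw [e1, e2]; group
        _ = (y1 * w) * y1⁻¹ := by rw [hly1, hw, commutatorElement_def]; group
        _ = w := by rw [e3]; group
    rw [h5] at h1
    calc x * w = (x * w * x⁻¹) * x := by group
      _ = w * x := by rw [h1]
  · have hxe : y * e * y⁻¹ ∈ cj y E := mem_cj.mpr ⟨e, he, rfl⟩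
    have hlx : l * (y * e * y⁻¹) = (y * e * y⁻¹) * l := P.eaF.1 l hl _ hxe
    have h1 : w = ⁅l, ⁅y, e⁆⁻¹⁆ := by
      have e1 : w = l * ⁅y, e⁆⁻¹ * ((y * e * y⁻¹) * l⁻¹) * (y * e * y⁻¹)⁻¹ * ⁅y, e⁆ := by
        rw [hw]; simp only [commutatorElement_def]; group
      have e2 : (y * e * y⁻¹) * l⁻¹ = l⁻¹ * (y * e * y⁻¹) := by
        have c : Commute l (y * e * y⁻¹) := hlx
        exact c.symm.inv_right.eq
      rw [e1, e2]
      simp only [commutatorElement_def]; group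
    have h2 : ⁅w, ⁅y, v⁆⁆ = 1 := by
      rw [h1]
      exact hU _ (inv_mem (hR e he)) _ (hR v hv)
    have h3 : ⁅x, w⁆ = 1 := by
      rw [← hvx, xc v hv w hwE, ← commutatorElement_inv, h2, inv_one]
    exact commutatorElement_eq_one_iff_mul_comm.mp h3

/-- One step of the induction. -/
lemma step [Finite G] {K : ℕ} (hK : (⊤ : Subgroup G).lowerCentralSeries K = ⊥)
    {E : Subgroup G} (hE : MaxHyp K E) (Ω R D V Y : Subgroup G)
    (Rn : R.Normal) (Dn : D.Normal) (Yn : Y.Normal)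
    (hΩ : ∀ x : G, x ^ 3 = 1 → x ∈ Ω)
    (hR : ∀ t ∈ Ω, ∀ g : G, ⁅g, t⁆ ∈ R)
    (hD : ∀ c ∈ R, ∀ t ∈ Ω, ⁅c, t⁆ ∈ D) (DR : D ≤ R)
    (hV : ∀ d ∈ D, ∀ t ∈ Ω, ⁅d, t⁆ ∈ V)
    (hY1 : ∀ c ∈ R, ∀ v ∈ V, ⁅c, v⁆ ∈ Y)
    (hY2 : ∀ d ∈ ⁅R, R⁆, ∀ t ∈ Ω, ⁅d, t⁆ ∈ Y)
    (hU : ∀ l ∈ Y, l ^ 3 = 1 →
      (∀ d ∈ D, l * d = d * l) ∨ ∀ c ∈ R, ∀ c' ∈ R, ⁅⁅l, c⁆, c'⁆ = 1)
    {N : Subgroup G} (hN : N.Normal)
    (hgood : ∀ k ∈ N, ∀ e ∈ E, k * e * k⁻¹ ∈ normalizer (E : Set G))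
    {y : G} (hy : ∀ g, ⁅y, g⁆ ∈ N) :
    ∀ e ∈ E, y * e * y⁻¹ ∈ normalizer (E : Set G) := by
  have P := pair_of_good hE.ea hN hy hgood
  have EΩ : E ≤ Ω := fun t ht => hΩ t (hE.ea.2 t ht)
  have hR' : ∀ t ∈ E, ⁅y, t⁆ ∈ R := fun t ht => hR t (EΩ ht) y
  have L : LocHyp E y Ω R D V Y :=
    { P := P, Rn := Rn, Yn := Yn, EΩ := EΩ
      FΩ := fun t ht => hΩ t (P.eaF.2 t ht)
      hR := hR', hD := hD, DR := DR, hV := hV, hY1 := hY1, hY2 := hY2
      hL := fun l hl hlN hlY => cond_local P Dn EΩ hR' hD hl hlN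
        (hU l hlY (P.eaF.2 l hl)) }
  intro e he
  have hx : y * e * y⁻¹ ∈ cj y E := mem_cj.mpr ⟨e, he, rfl⟩
  refine norm_of_limHyp hK hE ?_
  exact
    { ea := P.eaE
      x3 := P.eaF.2 _ hx
      h01 := fun u hu v hv => P.y1_core hx hu hv
      h33 := fun u hu => P.eaF.1 _ hx _ (P.zF hx hx hu)
      h22 := fun u hu v hv => P.eaF.1 _ (P.zF hx hx hu) _ (P.zF hx hx hv)
      h12 := fun u hu v hv => P.kappa hx (P.zF hx hx hv) (P.zN hx hx hv) hu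
        ((L.chain hu hv he he).2 _ hx) }

/-- The main theorem, general form. -/
theorem mainC [Finite G] (h3 : IsPGroup 3 G) (Ω R D V Y : Subgroup G)
    (Rn : R.Normal) (Dn : D.Normal) (Yn : Y.Normal)
    (hΩ : ∀ x : G, x ^ 3 = 1 → x ∈ Ω)
    (hR : ∀ t ∈ Ω, ∀ g : G, ⁅g, t⁆ ∈ R)
    (hD : ∀ c ∈ R, ∀ t ∈ Ω, ⁅c, t⁆ ∈ D) (DR : D ≤ R)
    (hV : ∀ d ∈ D, ∀ t ∈ Ω, ⁅d, t⁆ ∈ V)
    (hY1 : ∀ c ∈ R, ∀ v ∈ V, ⁅c, v⁆ ∈ Y)
    (hY2 : ∀ d ∈ ⁅R, R⁆, ∀ t ∈ Ω, ⁅d, t⁆ ∈ Y)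
    (hU : ∀ l ∈ Y, l ^ 3 = 1 →
      (∀ d ∈ D, l * d = d * l) ∨ ∀ c ∈ R, ∀ c' ∈ R, ⁅⁅l, c⁆, c'⁆ = 1)
    (n : ℕ)
    (hn : ∃ A : Subgroup G, (∀ x ∈ A, ∀ y ∈ A, x * y = y * x) ∧ (∀ x ∈ A, x ^ 3 = 1) ∧
      Nat.card A = 3 ^ n) :
    ∃ B : Subgroup G, (∀ x ∈ B, ∀ y ∈ B, x * y = y * x) ∧ (∀ x ∈ B, x ^ 3 = 1) ∧
      Nat.card B = 3 ^ n ∧ ∀ g ∈ normalClosure (B : Set G), ∀ b ∈ B, g * b * g⁻¹ ∈ B := by
  have hnil : Group.IsNilpotent G := h3.isNilpotent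
  obtain ⟨K, hK⟩ := Subgroup.nilpotent_iff_lowerCentralSeries.mp hnil
  obtain ⟨E0, hE0, hE0max⟩ := Set.exists_max_image {F : Subgroup G | EA F}
    (fun F => Nat.card F) (Set.toFinite _) ⟨⊥, by constructor <;> simp⟩
  obtain ⟨E, ⟨hE, hEc⟩, hEmax⟩ := Set.exists_max_image
    {F : Subgroup G | EA F ∧ Nat.card F = Nat.card E0}
    (fun F => level K F) (Set.toFinite _) ⟨E0, hE0, rfl⟩
  have hM : MaxHyp K E :=
    { ea := hE
      hmax := by intro F hF; rw [hEc]; exact hE0max F hF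
      hlev := fun F hF h => hEmax F ⟨hF, h.trans hEc⟩ }
  have key : ∀ j, j ≤ K → ∀ y ∈ (⊤ : Subgroup G).lowerCentralSeries (K - j),
      ∀ e ∈ E, y * e * y⁻¹ ∈ normalizer (E : Set G) := by
    intro j
    induction j with
    | zero =>
      intro _ y hy e he
      rw [Nat.sub_zero, hK, mem_bot] at hy
      rw [hy, one_mul, inv_one, mul_one]
      exact self_nz he
    | succ j ih =>
      intro hj y hy
      have hNn : ((⊤ : Subgroup G).lowerCentralSeries (K - j)).Normal := inferInstance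
      refine step hK hM Ω R D V Y Rn Dn Yn hΩ hR hD DR hV hY1 hY2 hU hNn
        (ih (by omega)) ?_
      intro g
      have h2 : K - j = (K - (j + 1)) + 1 := by omega
      rw [h2, Subgroup.lowerCentralSeries_succ]
      exact commutator_mem_commutator hy (mem_top g)
  have hall : ∀ g : G, ∀ f ∈ E, ∀ b ∈ E, (g * f * g⁻¹) * b * (g * f * g⁻¹)⁻¹ ∈ E := by
    intro g f hf b hb
    exact nz (key K le_rfl g (by rw [Nat.sub_self, Subgroup.lowerCentralSeries_zero]; exact mem_top g)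
      f hf) hb
  obtain ⟨A, hA1, hA2, hAc⟩ := hn
  have hcard : 3 ^ n ≤ Nat.card E := by rw [← hAc]; exact hM.hmax A ⟨hA1, hA2⟩
  obtain ⟨B, hBE, hBc, hBW⟩ := smaller h3 hE (normalClosure_normalises hall) n hcard
  refine ⟨B, fun x hx y hy => hE.1 x (hBE hx) y (hBE hy), fun x hx => hE.2 x (hBE hx), hBc, ?_⟩
  intro g hg b hb
  exact hBW g (normalClosure_mono (fun x hx => hBE hx) hg) b hb

end MP67
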