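import Mathlib
import Pool.Agent.Lib.MP_67dbdc_al.Final

/-!
The elementary abelian subgroup problem for `p = 3` (S01759) for all finite 3-groups `G` of class
at most 8, all finite 3-groups whose derived subgroup has class at most 3, and, more generally,
all finite 3-groups satisfying a condition on the elements of order 3 of a certain normal subgroup.
-/

open Subgroup
open scoped commutatorElement

namespace MP67.DerivedClassThree

universe u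

variable {G : Type u} [Group G]

/-- `[γ_m(G), G'] ≤ γ_{m+2}(G)`, elementwise. -/
lemma comm_lcs (m : ℕ) {a c : G} (ha : a ∈ (⊤ : Subgroup G).lowerCentralSeries m)
    (hc : c ∈ ⁅(⊤ : Subgroup G), (⊤ : Subgroup G)⁆) :
    ⁅a, c⁆ ∈ (⊤ : Subgroup G).lowerCentralSeries (m + 2) := by
  have hN : ((⊤ : Subgroup G).lowerCentralSeries (m + 2)).Normal := inferInstance
  have hs : ∀ (k : ℕ) {b g : G}, b ∈ (⊤ : Subgroup G).lowerCentralSeries k →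
      ⁅b, g⁆ ∈ (⊤ : Subgroup G).lowerCentralSeries (k + 1) := by
    intro k b g hb
    exact commutator_mem_commutator hb (mem_top g)
  rw [Subgroup.commutator_def] at hc
  induction hc using Subgroup.closure_induction with
  | mem x hx =>
    obtain ⟨u, _, v, _, rfl⟩ := hx
    have e : ⁅a, ⁅u, v⁆⁆ = u * ((a * (⁅v, ⁅a⁻¹, u⁻¹⁆⁆⁻¹) * a⁻¹) *
        (v * (⁅u⁻¹, ⁅v⁻¹, a⁆⁆⁻¹) * v⁻¹)) * u⁻¹ := by
      simp only [commutatorElement_def]; group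
    rw [e]
    have h1 : ⁅v, ⁅a⁻¹, u⁻¹⁆⁆ ∈ (⊤ : Subgroup G).lowerCentralSeries (m + 2) :=
      MP67.inv_comm (hs (m + 1) (hs m (inv_mem ha)))
    have h2 : ⁅u⁻¹, ⁅v⁻¹, a⁆⁆ ∈ (⊤ : Subgroup G).lowerCentralSeries (m + 2) :=
      MP67.inv_comm (hs (m + 1) (MP67.inv_comm (hs m ha)))
    exact hN.conj_mem _ (mul_mem (hN.conj_mem _ (inv_mem h1) a)
      (hN.conj_mem _ (inv_mem h2) v)) u
  | one => rw [commutatorElement_one_right]; exact one_mem _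
  | mul x y _ _ hx hy =>
    have e : ⁅a, x * y⁆ = ⁅a, x⁆ * (x * ⁅a, y⁆ * x⁻¹) := by
      simp only [commutatorElement_def]; group
    rw [e]
    exact mul_mem hx (hN.conj_mem _ hy x)
  | inv x _ hx =>
    have e : ⁅a, x⁻¹⁆ = x⁻¹ * ⁅a, x⁆⁻¹ * x⁻¹⁻¹ := by
      simp only [commutatorElement_def]; group
    rw [e]
    exact hN.conj_mem _ (inv_mem hx) x⁻¹

/-- Let `G` be a finite 3-group satisfying one of the following conditions:
* the class of `G` is at most 8;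
* the derived subgroup `G'` has class at most 3;
* there is a normal subgroup `Ω` of `G` containing all elements of order 3 such that, with
  `R = [Ω,G]`, `D = [R,Ω]`, `V = [D,Ω]` and `Y = [R,V][[R,R],Ω]`, every `l ∈ Y` with `l ^ 3 = 1`
  either commutes with all elements of `D` or satisfies `[[l,c],c'] = 1` for all `c, c' ∈ R`.
If `G` has an elementary abelian subgroup of order `3 ^ n`, then it has an elementary abelian
subgroup `B` of order `3 ^ n` that is normal in its normal closure. -/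
theorem result (n : ℕ) (G : Type*) [Group G] [Finite G] (hG : IsPGroup 3 G)
    (hU : (⊤ : Subgroup G).lowerCentralSeries 8 = ⊥ ∨
      (commutator G).lowerCentralSeries 3 = ⊥ ∨
      ∃ Ω : Subgroup G, Ω.Normal ∧ (∀ x : G, x ^ 3 = 1 → x ∈ Ω) ∧
        ∀ l ∈ (⁅⁅Ω, (⊤ : Subgroup G)⁆, ⁅⁅⁅Ω, (⊤ : Subgroup G)⁆, Ω⁆, Ω⁆⁆ ⊔
            ⁅⁅⁅Ω, (⊤ : Subgroup G)⁆, ⁅Ω, (⊤ : Subgroup G)⁆⁆, Ω⁆ : Subgroup G), l ^ 3 = 1 →
          (∀ d ∈ ⁅⁅Ω, (⊤ : Subgroup G)⁆, Ω⁆, l * d = d * l) ∨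
          (∀ c ∈ ⁅Ω, (⊤ : Subgroup G)⁆, ∀ c' ∈ ⁅Ω, (⊤ : Subgroup G)⁆, ⁅⁅l, c⁆, c'⁆ = 1))
    (hA : ∃ A : Subgroup G, (∀ x ∈ A, ∀ y ∈ A, x * y = y * x) ∧ (∀ x ∈ A, x ^ 3 = 1) ∧
      Nat.card A = 3 ^ n) :
    ∃ B : Subgroup G, (∀ x ∈ B, ∀ y ∈ B, x * y = y * x) ∧ (∀ x ∈ B, x ^ 3 = 1) ∧
      Nat.card B = 3 ^ n ∧
      ∀ g ∈ Subgroup.normalClosure (B : Set G), ∀ b ∈ B, g * b * g⁻¹ ∈ B := by
  have hU' : ∃ Ω : Subgroup G, Ω.Normal ∧ (∀ x : G, x ^ 3 = 1 → x ∈ Ω) ∧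
        ∀ l ∈ (⁅⁅Ω, (⊤ : Subgroup G)⁆, ⁅⁅⁅Ω, (⊤ : Subgroup G)⁆, Ω⁆, Ω⁆⁆ ⊔
            ⁅⁅⁅Ω, (⊤ : Subgroup G)⁆, ⁅Ω, (⊤ : Subgroup G)⁆⁆, Ω⁆ : Subgroup G), l ^ 3 = 1 →
          (∀ d ∈ ⁅⁅Ω, (⊤ : Subgroup G)⁆, Ω⁆, l * d = d * l) ∨
          (∀ c ∈ ⁅Ω, (⊤ : Subgroup G)⁆, ∀ c' ∈ ⁅Ω, (⊤ : Subgroup G)⁆, ⁅⁅l, c⁆, c'⁆ = 1) := by
    rcases hU with hU | hU | hU
    · -- class at most 8
      refine ⟨⊤, inferInstance, fun x _ => mem_top x, fun l hl _ => Or.inr ?_⟩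
      have h1 : l ∈ (⊤ : Subgroup G).lowerCentralSeries 4 := by
        have hle : (⁅⁅(⊤ : Subgroup G), (⊤ : Subgroup G)⁆, ⁅⁅⁅(⊤ : Subgroup G),
            (⊤ : Subgroup G)⁆, (⊤ : Subgroup G)⁆, (⊤ : Subgroup G)⁆⁆ ⊔
            ⁅⁅⁅(⊤ : Subgroup G), (⊤ : Subgroup G)⁆,
            ⁅(⊤ : Subgroup G), (⊤ : Subgroup G)⁆⁆, (⊤ : Subgroup G)⁆ : Subgroup G) ≤
            (⊤ : Subgroup G).lowerCentralSeries 4 := by
          refine sup_le ?_ ?_
          · rw [commutator_comm, commutator_le]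
            intro a ha c hc
            have h2 : a ∈ (⊤ : Subgroup G).lowerCentralSeries 3 := ha
            exact Subgroup.lowerCentralSeries_antitone _ (by norm_num) (comm_lcs 3 h2 hc)
          · refine commutator_mono ?_ le_rfl
            rw [commutator_le]
            intro a ha c hc
            have h2 : a ∈ (⊤ : Subgroup G).lowerCentralSeries 1 := ha
            exact comm_lcs 1 h2 hc
        exact hle hl
      intro c hc c' hc'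
      have h2 := comm_lcs 6 (comm_lcs 4 h1 hc) hc'
      rw [hU, mem_bot] at h2
      exact h2
    · -- derived subgroup of class at most 3
      refine ⟨⊤, inferInstance, fun x _ => mem_top x, fun l hl _ => Or.inr ?_⟩
      have hGG : ⁅(⊤ : Subgroup G), (⊤ : Subgroup G)⁆ = commutator G := rfl
      rw [hGG] at hl ⊢
      have h1 : l ∈ (commutator G).lowerCentralSeries 1 := by
        have hle : (⁅commutator G, ⁅⁅commutator G, (⊤ : Subgroup G)⁆, (⊤ : Subgroup G)⁆⁆ ⊔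
            ⁅⁅commutator G, commutator G⁆, (⊤ : Subgroup G)⁆ : Subgroup G) ≤
            ⁅commutator G, commutator G⁆ := by
          refine sup_le (commutator_mono le_rfl ?_) (commutator_le_left _ _)
          exact (commutator_le_left _ _).trans (commutator_le_left _ _)
        exact hle hl
      intro c hc c' hc'
      have h2 : ⁅⁅l, c⁆, c'⁆ ∈ (commutator G).lowerCentralSeries 3 :=
        commutator_mem_commutator (commutator_mem_commutator h1 hc) hc'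
      rw [hU, mem_bot] at h2
      exact h2
    · exact hU
  obtain ⟨Ω, hΩn, hΩ, hUU⟩ := hU'
  have i1 : (⁅Ω, (⊤ : Subgroup G)⁆ : Subgroup G).Normal := commutator_normal _ _
  have i2 : (⁅⁅Ω, (⊤ : Subgroup G)⁆, Ω⁆ : Subgroup G).Normal := commutator_normal _ _
  have i3 : (⁅⁅⁅Ω, (⊤ : Subgroup G)⁆, Ω⁆, Ω⁆ : Subgroup G).Normal := commutator_normal _ _
  have i4 : (⁅⁅Ω, (⊤ : Subgroup G)⁆, ⁅Ω, (⊤ : Subgroup G)⁆⁆ : Subgroup G).Normal :=
    commutator_normal _ _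
  have i5 : (⁅⁅Ω, (⊤ : Subgroup G)⁆, ⁅⁅⁅Ω, (⊤ : Subgroup G)⁆, Ω⁆, Ω⁆⁆ : Subgroup G).Normal :=
    commutator_normal _ _
  have i6 : (⁅⁅⁅Ω, (⊤ : Subgroup G)⁆, ⁅Ω, (⊤ : Subgroup G)⁆⁆, Ω⁆ : Subgroup G).Normal :=
    commutator_normal _ _
  refine MP67.mainC hG Ω ⁅Ω, (⊤ : Subgroup G)⁆ ⁅⁅Ω, (⊤ : Subgroup G)⁆, Ω⁆
    ⁅⁅⁅Ω, (⊤ : Subgroup G)⁆, Ω⁆, Ω⁆
    (⁅⁅Ω, (⊤ : Subgroup G)⁆, ⁅⁅⁅Ω, (⊤ : Subgroup G)⁆, Ω⁆, Ω⁆⁆ ⊔
      ⁅⁅⁅Ω, (⊤ : Subgroup G)⁆, ⁅Ω, (⊤ : Subgroup G)⁆⁆, Ω⁆) i1 i2 inferInstance hΩ ?_ ?_ ?_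
      ?_ ?_ ?_ hUU n hA
  · intro t ht g
    exact MP67.inv_comm (commutator_mem_commutator ht (mem_top g))
  · intro c hc t ht
    exact commutator_mem_commutator hc ht
  · exact commutator_le_left _ _
  · intro d hd t ht
    exact commutator_mem_commutator hd ht
  · intro c hc v hv
    exact mem_sup_left (commutator_mem_commutator hc hv)
  · intro d hd t ht
    exact mem_sup_right (commutator_mem_commutator hd ht)

end MP67.DerivedClassThree
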