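import Mathlib

/-!
# Elementary abelian subgroups of finite 3-groups that are normal in their normal closure

Basic notions and the descent from the maximal order to all smaller orders.
-/

set_option autoImplicit false

open Subgroup

namespace MP67R

/-- abelian of exponent dividing 3 -/
def EA {G : Type*} [Group G] (A : Subgroup G) : Prop :=
  (∀ x ∈ A, ∀ y ∈ A, x * y = y * x) ∧ ∀ x ∈ A, x ^ 3 = 1

/-- normal in the normal closure -/
def NC {G : Type*} [Group G] (B : Subgroup G) : Prop :=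
  ∀ g ∈ normalClosure (B : Set G), ∀ b ∈ B, g * b * g⁻¹ ∈ B

section basic

variable {G : Type*} [Group G]

/-- a nontrivial subgroup of a finite 3-group is cut to index 3 by a normal subgroup -/
theorem exists_cut [Finite G] (hG : IsPGroup 3 G) (A : Subgroup G) (hA : A ≠ ⊥) :
    ∃ K : Subgroup G, K.Normal ∧ Nat.card A = 3 * Nat.card (A ⊓ K : Subgroup G) := by
  have hp3 : Fact (Nat.Prime 3) := ⟨Nat.prime_three⟩
  obtain ⟨K, -, hK⟩ := Finite.exists_le_maximal
    (p := fun K : Subgroup G => K.Normal ∧ ¬ A ≤ K) (a := ⊥)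
    ⟨inferInstance, fun h => hA (le_bot_iff.1 h)⟩
  obtain ⟨hKn, hAK⟩ := hK.prop
  refine ⟨K, hKn, ?_⟩
  set f := QuotientGroup.mk' K with hf
  have hKtop : K ≠ ⊤ := fun h => hAK (h ▸ le_top)
  have hnt : Nontrivial (G ⧸ K) := by
    rw [← not_subsingleton_iff_nontrivial]
    intro h
    exact hKtop (QuotientGroup.subsingleton_iff.1 h)
  have hQ : IsPGroup 3 (G ⧸ K) := hG.to_quotient K
  have hct : Nontrivial (center (G ⧸ K)) := hQ.center_nontrivial
  have h3 : 3 ∣ Nat.card (center (G ⧸ K)) := by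
    have h1 := (hQ.to_subgroup (center (G ⧸ K)))
    obtain ⟨n, hn, h2⟩ := (IsPGroup.nontrivial_iff_card h1).1 inferInstance
    rw [h2]
    exact dvd_pow_self 3 hn.ne'
  obtain ⟨z, hz⟩ := exists_prime_orderOf_dvd_card' 3 h3
  have hz1 : orderOf (z : G ⧸ K) = 3 := by
    rw [← hz]
    exact Subgroup.orderOf_coe z
  have hZn : (zpowers (z : G ⧸ K)).Normal := by
    refine ⟨fun x hx g => ?_⟩
    have h1 : x ∈ center (G ⧸ K) := by
      obtain ⟨m, rfl⟩ := hx
      exact zpow_mem z.2 m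
    have h2 : g * x * g⁻¹ = x := by
      rw [mem_center_iff.1 h1 g]
      group
    rw [h2]
    exact hx
  set K1 := (zpowers (z : G ⧸ K)).comap f with hK1
  have hle : K ≤ K1 := by
    intro x hx
    rw [hK1, mem_comap]
    have : f x = 1 := (QuotientGroup.eq_one_iff x).2 hx
    rw [this]
    exact one_mem _
  have hAK1 : A ≤ K1 := by
    by_contra hc
    have h1 : K1 ≤ K := hK.2 ⟨by rw [hK1]; exact hZn.comap f, hc⟩ hle
    obtain ⟨y, hy⟩ := QuotientGroup.mk'_surjective K (z : G ⧸ K)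
    have h2 : y ∈ K1 := by
      rw [hK1, mem_comap, hf, hy]
      exact mem_zpowers _
    have h3 : (z : G ⧸ K) = 1 := by
      rw [← hy]
      exact (QuotientGroup.eq_one_iff y).2 (h1 h2)
    rw [h3, orderOf_one] at hz1
    omega
  have hmap : A.map f ≤ zpowers (z : G ⧸ K) := by
    rw [map_le_iff_le_comap]
    exact hAK1
  have hdvd : Nat.card (A.map f) ∣ 3 := by
    have := card_dvd_of_le hmap
    rwa [Nat.card_zpowers, hz1] at this
  have hne : Nat.card (A.map f) ≠ 1 := by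
    intro h
    have h1 : A.map f = ⊥ := (card_eq_one).1 h
    apply hAK
    intro x hx
    have h2 : f x ∈ A.map f := mem_map_of_mem f hx
    rw [h1, mem_bot] at h2
    exact (QuotientGroup.eq_one_iff x).1 h2
  have h4 : Nat.card (A.map f) = 3 := by
    rcases (Nat.dvd_prime Nat.prime_three).1 hdvd with h | h
    · exact absurd h hne
    · exact h
  have h5 : K.relIndex A = 3 := by
    rw [← h4, ← relIndex_ker A f, hf, QuotientGroup.ker_mk']
  have h6 : Nat.card (K.subgroupOf A) * (K.subgroupOf A).index = Nat.card A :=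
    card_mul_index _
  have h7 : (K.subgroupOf A).index = 3 := h5
  have h8 : Nat.card (K.subgroupOf A) = Nat.card (A ⊓ K : Subgroup G) := by
    rw [← inf_subgroupOf_right K A, inf_comm K A]
    exact Nat.card_congr (subgroupOfEquivOfLe inf_le_left).toEquiv
  rw [← h6, h7, h8, mul_comm]

theorem NC.inf {A K : Subgroup G} (hA : NC A) (hK : K.Normal) : NC (A ⊓ K) := by
  intro g hg b hb
  refine ⟨hA g (normalClosure_mono (by exact inf_le_left (a := A) (b := K)) hg) b hb.1,
    hK.conj_mem b hb.2 g⟩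

theorem EA.mono {A B : Subgroup G} (hB : EA B) (h : A ≤ B) : EA A :=
  ⟨fun x hx y hy => hB.1 x (h hx) y (h hy), fun x hx => hB.2 x (h hx)⟩

/-- descent to smaller orders -/
theorem descend [Finite G] (hG : IsPGroup 3 G) {N : Subgroup G} {n : ℕ} :
    ∀ {m : ℕ}, n ≤ m → (∃ B : Subgroup G, B ≤ N ∧ EA B ∧ Nat.card B = 3 ^ m ∧ NC B) →
      ∃ B : Subgroup G, B ≤ N ∧ EA B ∧ Nat.card B = 3 ^ n ∧ NC B := by
  intro m hm
  induction m, hm using Nat.le_induction with
  | base => exact id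
  | succ m hm ih =>
    rintro ⟨B, h1, h2, h3, h4⟩
    have hB : B ≠ ⊥ := by
      rintro rfl
      rw [card_bot] at h3
      have : 1 < 3 ^ (m + 1) := Nat.one_lt_pow (by omega) (by norm_num)
      omega
    obtain ⟨K, hK, h5⟩ := exists_cut hG B hB
    refine ih ⟨B ⊓ K, inf_le_left.trans h1, h2.mono inf_le_left, ?_, h4.inf hK⟩
    rw [h3, pow_succ, mul_comm] at h5
    exact (Nat.eq_of_mul_eq_mul_left (by norm_num) h5).symm

end basic

section closure

/-- the conclusion of the question for all `n`, for one group -/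
def Good (G : Type) [Group G] : Prop :=
  ∀ n : ℕ, (∃ A : Subgroup G, EA A ∧ Nat.card A = 3 ^ n) →
    ∃ B : Subgroup G, EA B ∧ Nat.card B = 3 ^ n ∧ NC B

theorem EA.isPGroup {G : Type*} [Group G] {A : Subgroup G} (hA : EA A) : IsPGroup 3 A := by
  intro x
  refine ⟨1, ?_⟩
  apply Subtype.ext
  rw [pow_one]
  exact hA.2 x.1 x.2

theorem EA.card {G : Type*} [Group G] [Finite G] {A : Subgroup G} (hA : EA A) :
    ∃ n, Nat.card A = 3 ^ n :=
  haveI : Fact (Nat.Prime 3) := ⟨Nat.prime_three⟩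
  IsPGroup.iff_card.1 hA.isPGroup

theorem EA.bot {G : Type*} [Group G] : EA (⊥ : Subgroup G) :=
  ⟨fun x hx y hy => by rw [mem_bot.1 hx, mem_bot.1 hy], fun x hx => by
      rw [mem_bot.1 hx, one_pow]⟩

theorem good_of_max {G : Type} [Group G] [Finite G] (hG : IsPGroup 3 G)
    (h : ∃ B : Subgroup G, EA B ∧ (∀ A : Subgroup G, EA A → Nat.card A ≤ Nat.card B) ∧ NC B) :
    Good G := by
  obtain ⟨B, h1, h2, h3⟩ := h
  rintro n ⟨A, hA, hAn⟩
  obtain ⟨m, hm⟩ := h1.card
  have h4 := h2 A hA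
  rw [hAn, hm] at h4
  have h5 : n ≤ m := (Nat.pow_le_pow_iff_right (by norm_num)).1 h4
  obtain ⟨C, -, hC⟩ := descend hG (N := ⊤) h5 ⟨B, le_top, h1, hm, h3⟩
  exact ⟨C, hC⟩

theorem max_of_good {G : Type} [Group G] [Finite G] (h : Good G) :
    ∃ B : Subgroup G, EA B ∧ (∀ A : Subgroup G, EA A → Nat.card A ≤ Nat.card B) ∧ NC B := by
  obtain ⟨A0, hA0, hA0m⟩ := Set.exists_max_image {A : Subgroup G | EA A}
    (fun A => Nat.card A) (Set.toFinite _) ⟨⊥, EA.bot⟩
  obtain ⟨n, hn⟩ := EA.card (show EA A0 from hA0)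
  obtain ⟨B, h1, h2, h3⟩ := h n ⟨A0, hA0, hn⟩
  refine ⟨B, h1, fun A hA => ?_, h3⟩
  rw [h2, ← hn]
  exact hA0m A hA

theorem EA.map {G H : Type*} [Group G] [Group H] {A : Subgroup G} (hA : EA A) (f : G →* H) :
    EA (A.map f) := by
  constructor
  · rintro _ ⟨w, hw, rfl⟩ _ ⟨v, hv, rfl⟩
    rw [← map_mul, ← map_mul, hA.1 w hw v hv]
  · rintro _ ⟨w, hw, rfl⟩
    rw [← map_pow, hA.2 w hw, map_one]

/-- a sufficient condition for `NC` -/
theorem NC.of_conj {G : Type*} [Group G] {C : Subgroup G}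
    (hconj : ∀ g : G, ∀ c ∈ C, ∀ b ∈ C, (g * c * g⁻¹) * b * (g * c * g⁻¹)⁻¹ ∈ C) : NC C := by
  have hnorm : normalClosure (C : Set G) ≤ normalizer (C : Set G) := by
    rw [normalClosure, closure_le]
    intro y hy
    obtain ⟨c, hc, hcy⟩ := Group.mem_conjugatesOfSet_iff.1 hy
    obtain ⟨g, hgc⟩ := isConj_iff.1 hcy
    subst hgc
    intro b
    constructor
    · intro hb
      exact hconj g c hc b hb
    · intro hb
      have h1 := hconj g c⁻¹ (inv_mem hc) _ hb
      have h2 : g * c⁻¹ * g⁻¹ * (g * c * g⁻¹ * b * (g * c * g⁻¹)⁻¹) * (g * c⁻¹ * g⁻¹)⁻¹ = b := by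
        group
      rw [h2] at h1
      exact h1
  intro g hg b hb
  exact (hnorm hg b).1 hb

/-- the other way round -/
theorem NC.conj {G : Type*} [Group G] {C : Subgroup G} (h : NC C) (g : G) {c : G} (hc : c ∈ C)
    {b : G} (hb : b ∈ C) : (g * c * g⁻¹) * b * (g * c * g⁻¹)⁻¹ ∈ C :=
  h _ (normalClosure_normal.conj_mem _ (subset_normalClosure hc) g) b hb

end closure

end MP67R
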