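import Mathlib
import Pool.Agent.Lib.MP_67dbdc_al.Final

/-!
The relative form: elementary abelian subgroups inside a normal subgroup `Ω` of a finite 3-group
`G`, normal in their normal closure in `G`.
-/

namespace MP67

open Subgroup
open scoped commutatorElement

universe u

variable {G : Type u} [Group G]

/-- Maximal order and maximal level inside `Ω`. -/
structure MaxHypR (Ω : Subgroup G) (K : ℕ) (E : Subgroup G) : Prop where
  ea : EA E
  le : E ≤ Ω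
  hmax : ∀ F : Subgroup G, F ≤ Ω → EA F → Nat.card F ≤ Nat.card E
  hlev : ∀ F : Subgroup G, F ≤ Ω → EA F → Nat.card F = Nat.card E → level K F ≤ level K E

/-- The consequence of maximality, relative form. -/
lemma norm_of_limHypR [Finite G] {K : ℕ} (hK : (⊤ : Subgroup G).lowerCentralSeries K = ⊥)
    {Ω E : Subgroup G} (hΩ : Ω.Normal) (hE : MaxHypR Ω K E) {x : G}
    (h : LimHyp E x) : x ∈ normalizer (E : Set G) := by
  classical
  by_cases hc : E ≤ core E x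
  · exact mem_nz_of (fun u hu => (hc hu).2.1)
  exfalso
  obtain ⟨S0, hS0, -, hN0, hcS0, h20, h10⟩ := limit h
  have cΩ : ∀ t ∈ Ω, ⁅x, t⁆ ∈ Ω := by
    intro t ht
    rw [commutatorElement_def]
    exact mul_mem (hΩ.conj_mem _ ht x) (inv_mem ht)
  set S : Subgroup G := S0 ⊓ Ω with hSdef
  have hS : EA S := ⟨fun a ha b hb => hS0.1 a ha.1 b hb.1, fun a ha => hS0.2 a ha.1⟩
  have hN : ∀ N : Subgroup G, N.Normal → Nat.card (E ⊓ N : Subgroup G) ≤
      Nat.card (S ⊓ N : Subgroup G) := by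
    intro N hNn
    have hn : (Ω ⊓ N).Normal := inferInstance
    have h1 := hN0 (Ω ⊓ N) hn
    have e1 : E ⊓ (Ω ⊓ N) = E ⊓ N := by rw [← inf_assoc, inf_eq_left.2 hE.le]
    have e2 : S0 ⊓ (Ω ⊓ N) = S ⊓ N := by rw [← inf_assoc]
    rwa [e1, e2] at h1
  have hcard : Nat.card E ≤ Nat.card S := by
    have h1 := hN Ω hΩ
    rw [inf_eq_left.2 hE.le, inf_eq_left.2 (inf_le_right : S ≤ Ω)] at h1
    exact h1
  have hcS : core E x ≤ S := le_inf hcS0 (fun g hg => hE.le hg.1)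
  have h2 : ∀ t ∈ E, ⁅x, ⁅x, t⁆⁆ ∈ S := fun t ht => ⟨h20 t ht, cΩ _ (cΩ _ (hE.le ht))⟩
  have h1 : ∀ t ∈ E, ⁅x, ⁅x, t⁆⁆ ∈ core E x → ⁅x, t⁆ ∈ S :=
    fun t ht h3 => ⟨h10 t ht h3, cΩ _ (hE.le ht)⟩
  have hSΩ : S ≤ Ω := inf_le_right
  have hcS' : Nat.card S = Nat.card E := le_antisymm (hE.hmax S hSΩ hS) hcard
  have hlev := hE.hlev S hSΩ hS hcS'
  have hex : ∃ k, E ⊓ (⊤ : Subgroup G).lowerCentralSeries k ≤ core E x := by
    refine ⟨K, ?_⟩
    rw [hK, inf_bot_eq]; exact bot_le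
  set k := Nat.find hex with hk
  have hk1 : E ⊓ (⊤ : Subgroup G).lowerCentralSeries k ≤ core E x := Nat.find_spec hex
  have hkK : k ≤ K := Nat.find_min' hex (by rw [hK, inf_bot_eq]; exact bot_le)
  have hk0 : k ≠ 0 := by
    intro h0
    rw [h0, Subgroup.lowerCentralSeries_zero, inf_top_eq] at hk1
    exact hc hk1
  obtain ⟨j, hj⟩ := Nat.exists_eq_succ_of_ne_zero hk0
  have hj1 : ¬ E ⊓ (⊤ : Subgroup G).lowerCentralSeries j ≤ core E x :=
    Nat.find_min hex (by omega)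
  obtain ⟨t, ht, htc⟩ := SetLike.not_le_iff_exists.mp hj1
  have hcl : ∀ u, u ∈ (⊤ : Subgroup G).lowerCentralSeries j →
      ⁅x, u⁆ ∈ (⊤ : Subgroup G).lowerCentralSeries k := by
    intro u hu
    rw [hj, Nat.succ_eq_add_one, Subgroup.lowerCentralSeries_succ]
    exact inv_comm (commutator_mem_commutator hu (mem_top x))
  have hkj : (⊤ : Subgroup G).lowerCentralSeries k ≤ (⊤ : Subgroup G).lowerCentralSeries j :=
    Subgroup.lowerCentralSeries_antitone _ (by omega)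
  have ht1 := hcl t ht.2
  have ht2 := hcl _ (hkj ht1)
  have hg : ∃ g ∈ S, g ∈ (⊤ : Subgroup G).lowerCentralSeries k ∧ g ∉ core E x := by
    by_cases h3 : ⁅x, ⁅x, t⁆⁆ ∈ core E x
    · exact ⟨_, h1 t ht.1 h3, ht1, fun h4 => htc (core_of_comm h.x3 ht.1 h4)⟩
    · exact ⟨_, h2 t ht.1, ht2, h3⟩
  obtain ⟨g, hgS, hgk, hgc⟩ := hg
  have hle : E ⊓ (⊤ : Subgroup G).lowerCentralSeries k ≤
      S ⊓ (⊤ : Subgroup G).lowerCentralSeries k :=
    fun u hu => ⟨hcS (hk1 hu), hu.2⟩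
  have hlt : Nat.card (E ⊓ (⊤ : Subgroup G).lowerCentralSeries k : Subgroup G) <
      Nat.card (S ⊓ (⊤ : Subgroup G).lowerCentralSeries k : Subgroup G) := by
    refine lt_of_le_of_ne (Subgroup.card_le_of_le hle) (fun heq => ?_)
    have := Subgroup.eq_of_le_of_card_ge hle heq.ge
    have hg' : g ∈ E ⊓ (⊤ : Subgroup G).lowerCentralSeries k := by
      rw [this]; exact ⟨hgS, hgk⟩
    exact hgc (hk1 hg')
  have : level K E < level K S := by
    refine Finset.sum_lt_sum (fun i _ => hN _ inferInstance) ⟨k, ?_, hlt⟩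
    rw [Finset.mem_range]; omega
  omega

/-- The main theorem, relative form. -/
theorem mainR [Finite G] (h3 : IsPGroup 3 G) (Ω R D V Y : Subgroup G) (Ωn : Ω.Normal)
    (Rn : R.Normal) (Dn : D.Normal) (Yn : Y.Normal)
    (hR : ∀ t ∈ Ω, ∀ g : G, ⁅g, t⁆ ∈ R)
    (hD : ∀ c ∈ R, ∀ t ∈ Ω, ⁅c, t⁆ ∈ D) (DR : D ≤ R)
    (hV : ∀ d ∈ D, ∀ t ∈ Ω, ⁅d, t⁆ ∈ V)
    (hY1 : ∀ c ∈ R, ∀ v ∈ V, ⁅c, v⁆ ∈ Y)
    (hY2 : ∀ d ∈ ⁅R, R⁆, ∀ t ∈ Ω, ⁅d, t⁆ ∈ Y)
    (hU : ∀ l ∈ Y, l ^ 3 = 1 →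
      (∀ d ∈ D, l * d = d * l) ∨ ∀ c ∈ R, ∀ c' ∈ R, ⁅⁅l, c⁆, c'⁆ = 1)
    (n : ℕ)
    (hn : ∃ A : Subgroup G, A ≤ Ω ∧ (∀ x ∈ A, ∀ y ∈ A, x * y = y * x) ∧ (∀ x ∈ A, x ^ 3 = 1) ∧
      Nat.card A = 3 ^ n) :
    ∃ B : Subgroup G, B ≤ Ω ∧ (∀ x ∈ B, ∀ y ∈ B, x * y = y * x) ∧ (∀ x ∈ B, x ^ 3 = 1) ∧
      Nat.card B = 3 ^ n ∧ ∀ g ∈ normalClosure (B : Set G), ∀ b ∈ B, g * b * g⁻¹ ∈ B := by
  have hnil : Group.IsNilpotent G := h3.isNilpotent
  obtain ⟨K, hK⟩ := Subgroup.nilpotent_iff_lowerCentralSeries.mp hnil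
  obtain ⟨E0, ⟨hE0Ω, hE0⟩, hE0max⟩ := Set.exists_max_image {F : Subgroup G | F ≤ Ω ∧ EA F}
    (fun F => Nat.card F) (Set.toFinite _) ⟨⊥, bot_le, by constructor <;> simp⟩
  obtain ⟨E, ⟨⟨hEΩ, hE⟩, hEc⟩, hEmax⟩ := Set.exists_max_image
    {F : Subgroup G | (F ≤ Ω ∧ EA F) ∧ Nat.card F = Nat.card E0}
    (fun F => level K F) (Set.toFinite _) ⟨E0, ⟨hE0Ω, hE0⟩, rfl⟩
  have hM : MaxHypR Ω K E :=
    { ea := hE
      le := hEΩ
      hmax := by intro F hFΩ hF; rw [hEc]; exact hE0max F ⟨hFΩ, hF⟩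
      hlev := fun F hFΩ hF h => hEmax F ⟨⟨hFΩ, hF⟩, h.trans hEc⟩ }
  have key : ∀ j, j ≤ K → ∀ y ∈ (⊤ : Subgroup G).lowerCentralSeries (K - j),
      ∀ e ∈ E, y * e * y⁻¹ ∈ normalizer (E : Set G) := by
    intro j
    induction j with
    | zero =>
      intro _ y hy e he
      rw [Nat.sub_zero, hK, mem_bot] at hy
      rw [hy, one_mul, inv_one, mul_one]
      exact self_nz he
    | succ j ih =>
      intro hj y hy
      have hNn : ((⊤ : Subgroup G).lowerCentralSeries (K - j)).Normal := inferInstance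
      have hy' : ∀ g, ⁅y, g⁆ ∈ (⊤ : Subgroup G).lowerCentralSeries (K - j) := by
        intro g
        have h2 : K - j = (K - (j + 1)) + 1 := by omega
        rw [h2, Subgroup.lowerCentralSeries_succ]
        exact commutator_mem_commutator hy (mem_top g)
      have P := pair_of_good hM.ea hNn hy' (ih (by omega))
      have hR' : ∀ t ∈ E, ⁅y, t⁆ ∈ R := fun t ht => hR t (hEΩ ht) y
      have L : LocHyp E y Ω R D V Y :=
        { P := P, Rn := Rn, Yn := Yn, EΩ := hEΩ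
          FΩ := by
            intro t ht
            obtain ⟨s, hs, rfl⟩ := mem_cj.mp ht
            exact Ωn.conj_mem _ (hEΩ hs) y
          hR := hR', hD := hD, DR := DR, hV := hV, hY1 := hY1, hY2 := hY2
          hL := fun l hl hlN hlY => cond_local P Dn hEΩ hR' hD hl hlN
            (hU l hlY (P.eaF.2 l hl)) }
      intro e he
      have hx : y * e * y⁻¹ ∈ cj y E := mem_cj.mpr ⟨e, he, rfl⟩
      refine norm_of_limHypR hK Ωn hM ?_
      exact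
        { ea := P.eaE
          x3 := P.eaF.2 _ hx
          h01 := fun u hu v hv => P.y1_core hx hu hv
          h33 := fun u hu => P.eaF.1 _ hx _ (P.zF hx hx hu)
          h22 := fun u hu v hv => P.eaF.1 _ (P.zF hx hx hu) _ (P.zF hx hx hv)
          h12 := fun u hu v hv => P.kappa hx (P.zF hx hx hv) (P.zN hx hx hv) hu
            ((L.chain hu hv he he).2 _ hx) }
  have hall : ∀ g : G, ∀ f ∈ E, ∀ b ∈ E, (g * f * g⁻¹) * b * (g * f * g⁻¹)⁻¹ ∈ E := by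
    intro g f hf b hb
    exact nz (key K le_rfl g (by rw [Nat.sub_self, Subgroup.lowerCentralSeries_zero]; exact mem_top g)
      f hf) hb
  obtain ⟨A, hAΩ, hA1, hA2, hAc⟩ := hn
  have hcard : 3 ^ n ≤ Nat.card E := by rw [← hAc]; exact hM.hmax A hAΩ ⟨hA1, hA2⟩
  obtain ⟨B, hBE, hBc, hBW⟩ := smaller h3 hE (normalClosure_normalises hall) n hcard
  refine ⟨B, hBE.trans hEΩ, fun x hx y hy => hE.1 x (hBE hx) y (hBE hy),
    fun x hx => hE.2 x (hBE hx), hBc, ?_⟩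
  intro g hg b hb
  exact hBW g (normalClosure_mono (fun x hx => hBE hx) hg) b hb

end MP67
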